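import Mathlib

set_option autoImplicit false
set_option linter.unusedSectionVars false

namespace Pool.Agent.H567

open Equiv Finset

/-- The number of permutations with prescribed values at `b` distinct points does not depend on
the points and the values. -/
lemma exists_card_prescribed (b : ℕ) (ι : Type*) [Fintype ι] [DecidableEq ι] :
    ∃ N : ℕ, (∀ R L : Fin b → ι, Function.Injective R → Function.Injective L →
      (univ.filter (fun σ : Perm ι => ∀ c, σ (R c) = L c)).card = N) ∧
      (b ≤ Fintype.card ι → N ≠ 0) := by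
  by_cases hex : ∃ R₀ : Fin b → ι, Function.Injective R₀
  · obtain ⟨R₀, hR₀⟩ := hex
    refine ⟨(univ.filter (fun σ : Perm ι => ∀ c, σ (R₀ c) = R₀ c)).card, ?_, ?_⟩
    · intro R L hR hL
      have htrans := Equiv.Perm.isMultiplyPretransitive ι b
      obtain ⟨π, hπ⟩ := MulAction.exists_smul_eq (Perm ι) (⟨R₀, hR₀⟩ : Fin b ↪ ι) ⟨R, hR⟩
      obtain ⟨ρ, hρ⟩ := MulAction.exists_smul_eq (Perm ι) (⟨R₀, hR₀⟩ : Fin b ↪ ι) ⟨L, hL⟩
      have hπ' : ∀ c, π (R₀ c) = R c := fun c => by
        have := DFunLike.congr_fun hπ c
        simpa using this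
      have hρ' : ∀ c, ρ (R₀ c) = L c := fun c => by
        have := DFunLike.congr_fun hρ c
        simpa using this
      apply Finset.card_bij' (fun σ _ => ρ⁻¹ * σ * π) (fun σ _ => ρ * σ * π⁻¹)
      · intro σ hσ
        simp only [mem_filter, mem_univ, true_and] at hσ ⊢
        intro c
        simp only [Perm.mul_apply, hπ', hσ, ← hρ']
        simp
      · intro σ hσ
        simp only [mem_filter, mem_univ, true_and] at hσ ⊢
        intro c
        have e : π⁻¹ (π (R₀ c)) = R₀ c := by simp
        simp only [Perm.mul_apply, ← hπ', e, hσ, hρ']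
      · intro σ _
        group
      · intro σ _
        group
    · intro _ h0
      rw [Finset.card_eq_zero] at h0
      have : (1 : Perm ι) ∈ univ.filter (fun σ : Perm ι => ∀ c, σ (R₀ c) = R₀ c) := by
        simp
      rw [h0] at this
      simp at this
  · refine ⟨0, fun R _ hR _ => absurd ⟨R, hR⟩ hex, ?_⟩
    intro hb
    exfalso
    apply hex
    have : Fintype.card (Fin b) ≤ Fintype.card ι := by simpa using hb
    obtain ⟨f⟩ := Function.Embedding.nonempty_of_card_le this
    exact ⟨f, f.injective⟩


section base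

variable {K : Type*} [Field K] {κ : Type*} [Fintype κ] [DecidableEq κ]

/-- first special row -/
def y1 (K : Type*) [Field K] (κ : Type*) [Fintype κ] : Option (Option κ) → K
  | none => 0
  | some none => -(Fintype.card κ : K)
  | some (some _) => 1

/-- second special row -/
def y2 (K : Type*) [Field K] (κ : Type*) [Fintype κ] : Option (Option κ) → K
  | none => 2 - (Fintype.card κ : K)
  | some _ => 1

lemma sum_y1 : ∑ a, y1 K κ a = 0 := by
  simp [Fintype.sum_option, y1]

lemma sum_y2 : ∑ a, y2 K κ a = 3 := by
  simp [Fintype.sum_option, y2]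
  ring

lemma sum_y12 : ∑ a, y1 K κ a * y2 K κ a = 0 := by
  simp [Fintype.sum_option, y1, y2]

/-- position of the lower rows -/
def low (i : κ) : Option (Option κ) := some (some i)

lemma low_injective : Function.Injective (low : κ → Option (Option κ)) := by
  intro i j h
  simpa [low] using h

/-- the pair sum over the columns outside of `T` -/
def Z (K : Type*) [Field K] (κ : Type*) [Fintype κ] [DecidableEq κ]
    (T : Finset (Option (Option κ))) : K :=
  ∑ a ∈ Tᶜ, ∑ b ∈ Tᶜ.erase a, y1 K κ a * y2 K κ b

lemma Z_eq (T : Finset (Option (Option κ))) (hT : none ∉ T) :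
    Z K κ T = ((T.card : K) - 2) * ∑ a ∈ T, y1 K κ a := by
  have h2 : ∀ a ∈ T, y2 K κ a = 1 := by
    intro a ha
    cases a with
    | none => exact absurd ha hT
    | some a => rfl
  have e1 : ∑ a ∈ Tᶜ, y1 K κ a = - ∑ a ∈ T, y1 K κ a := by
    have := Finset.sum_compl_add_sum T (fun a => y1 K κ a)
    rw [sum_y1] at this
    linear_combination this
  have e2 : ∑ a ∈ Tᶜ, y2 K κ a = 3 - (T.card : K) := by
    have := Finset.sum_compl_add_sum T (fun a => y2 K κ a)
    rw [sum_y2, Finset.sum_congr rfl h2] at this
    simp only [sum_const, nsmul_eq_mul, mul_one] at this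
    linear_combination this
  have e3 : ∑ a ∈ Tᶜ, y1 K κ a * y2 K κ a = - ∑ a ∈ T, y1 K κ a := by
    have := Finset.sum_compl_add_sum T (fun a => y1 K κ a * y2 K κ a)
    rw [sum_y12] at this
    have h3 : ∑ a ∈ T, y1 K κ a * y2 K κ a = ∑ a ∈ T, y1 K κ a :=
      Finset.sum_congr rfl (fun a ha => by rw [h2 a ha, mul_one])
    rw [h3] at this
    linear_combination this
  unfold Z
  have e4 : ∀ a ∈ Tᶜ, ∑ b ∈ Tᶜ.erase a, y1 K κ a * y2 K κ b
      = y1 K κ a * (3 - (T.card : K)) - y1 K κ a * y2 K κ a := by
    intro a ha
    rw [Finset.sum_erase_eq_sub ha, ← Finset.mul_sum, e2]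
  rw [Finset.sum_congr rfl e4, Finset.sum_sub_distrib, ← Finset.sum_mul, e1, e3]
  ring

open Classical in
/-- Sum over all permutations with prescribed values at lower rows. -/
lemma sum_prescribed {a N : ℕ}
    (hN : ∀ R L : Fin (a + 2) → Option (Option κ), Function.Injective R → Function.Injective L →
      (univ.filter (fun σ : Perm (Option (Option κ)) => ∀ c, σ (R c) = L c)).card = N)
    (r : Fin a → κ) (hr : Function.Injective r)
    (l : Fin a → Option (Option κ)) (hl : Function.Injective l) :
    ∑ σ : Perm (Option (Option κ)), (if ∀ c, σ (low (r c)) = l c then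
      y1 K κ (σ none) * y2 K κ (σ (some none)) else 0) = N * Z K κ (univ.image l) := by
  have hR : Function.Injective
      (Fin.cons none (Fin.cons (some none) (fun c => low (r c))) : Fin (a+2) → Option (Option κ)) := by
    rw [Fin.cons_injective_iff, Fin.cons_injective_iff]
    refine ⟨?_, ?_, low_injective.comp hr⟩
    · rintro ⟨c, hc⟩
      refine Fin.cases ?_ (fun c => ?_) c hc <;> simp [low]
    · rintro ⟨c, hc⟩
      simp [low] at hc
  have step : ∀ σ : Perm (Option (Option κ)), (if ∀ c, σ (low (r c)) = l c then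
      y1 K κ (σ none) * y2 K κ (σ (some none)) else 0)
      = ∑ α, ∑ β, y1 K κ α * y2 K κ β *
        (if (∀ c, σ ((Fin.cons none (Fin.cons (some none) (fun c => low (r c))) :
          Fin (a+2) → Option (Option κ)) c)
          = (Fin.cons α (Fin.cons β l) : Fin (a+2) → Option (Option κ)) c) then 1 else 0) := by
    intro σ
    simp only [Fin.forall_fin_succ, Fin.cons_zero, Fin.cons_succ]
    rw [Finset.sum_eq_single (σ none)]
    · rw [Finset.sum_eq_single (σ (some none))]
      · by_cases h : ∀ c, σ (low (r c)) = l c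
        · rw [if_pos h, if_pos ⟨rfl, rfl, h⟩, mul_one]
        · rw [if_neg h, if_neg (fun h' => h h'.2.2), mul_zero]
      · intro β _ hβ
        rw [if_neg, mul_zero]
        rintro ⟨_, h, _⟩
        exact hβ h.symm
      · simp
    · intro α _ hα
      apply Finset.sum_eq_zero
      intro β _
      rw [if_neg, mul_zero]
      rintro ⟨h, _, _⟩
      exact hα h.symm
    · simp
  simp_rw [step]
  rw [Finset.sum_comm]
  have step2 : ∀ α β : Option (Option κ), ∑ σ : Perm (Option (Option κ)), y1 K κ α * y2 K κ β *
        (if (∀ c, σ ((Fin.cons none (Fin.cons (some none) (fun c => low (r c))) :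
          Fin (a+2) → Option (Option κ)) c)
          = (Fin.cons α (Fin.cons β l) : Fin (a+2) → Option (Option κ)) c) then (1:K) else 0)
        = if α ∈ (univ.image l)ᶜ ∧ β ∈ ((univ.image l)ᶜ).erase α then
            y1 K κ α * y2 K κ β * N else 0 := by
    intro α β
    rw [← Finset.mul_sum, Finset.sum_boole]
    by_cases hL : Function.Injective (Fin.cons α (Fin.cons β l) : Fin (a+2) → Option (Option κ))
    · rw [hN _ _ hR hL]
      rw [Fin.cons_injective_iff, Fin.cons_injective_iff] at hL
      obtain ⟨h1, h2, h3⟩ := hL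
      rw [if_pos]
      constructor
      · simp only [mem_compl, mem_image, mem_univ, true_and]
        rintro ⟨c, hc⟩
        exact h1 ⟨Fin.succ c, by simpa using hc⟩
      · simp only [mem_erase, mem_compl, mem_image, mem_univ, true_and]
        refine ⟨?_, ?_⟩
        · intro h
          exact h1 ⟨0, by simpa using h⟩
        · rintro ⟨c, hc⟩
          exact h2 ⟨c, hc⟩
    · have hcard : (univ.filter (fun σ : Perm (Option (Option κ)) =>
          ∀ c, σ ((Fin.cons none (Fin.cons (some none) (fun c => low (r c))) :
          Fin (a+2) → Option (Option κ)) c)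
          = (Fin.cons α (Fin.cons β l) : Fin (a+2) → Option (Option κ)) c)) = ∅ := by
        apply Finset.filter_eq_empty_iff.mpr
        intro σ _ h
        apply hL
        intro c c' hcc
        rw [← h c, ← h c'] at hcc
        exact hR (σ.injective hcc)
      rw [hcard, if_neg]
      · simp
      · rintro ⟨h1, h2⟩
        apply hL
        rw [Fin.cons_injective_iff, Fin.cons_injective_iff]
        simp only [mem_compl, mem_image, mem_univ, true_and, mem_erase] at h1 h2
        refine ⟨?_, ?_, hl⟩
        · rintro ⟨c, hc⟩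
          revert hc
          refine Fin.cases ?_ (fun c => ?_) c
          · intro hc
            exact h2.1 (by simpa using hc)
          · intro hc
            exact h1 ⟨c, by simpa using hc⟩
        · rintro ⟨c, hc⟩
          exact h2.2 ⟨c, hc⟩
  have step3 : ∀ α : Option (Option κ), ∑ σ : Perm (Option (Option κ)), ∑ β, y1 K κ α * y2 K κ β *
        (if (∀ c, σ ((Fin.cons none (Fin.cons (some none) (fun c => low (r c))) :
          Fin (a+2) → Option (Option κ)) c)
          = (Fin.cons α (Fin.cons β l) : Fin (a+2) → Option (Option κ)) c) then (1:K) else 0)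
        = ∑ β, if α ∈ (univ.image l)ᶜ ∧ β ∈ ((univ.image l)ᶜ).erase α then
            y1 K κ α * y2 K κ β * N else 0 := by
    intro α
    rw [Finset.sum_comm]
    exact Finset.sum_congr rfl (fun β _ => step2 α β)
  rw [Finset.sum_congr rfl (fun α _ => step3 α)]
  unfold Z
  rw [Finset.mul_sum]
  have : ∀ s : Finset (Option (Option κ)), ∀ f : Option (Option κ) → K,
      ∑ x ∈ s, f x = ∑ x, if x ∈ s then f x else 0 := by
    intro s f
    rw [Finset.sum_ite_mem, Finset.univ_inter]
  rw [this (univ.image l)ᶜ]
  apply Finset.sum_congr rfl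
  intro α _
  by_cases hα : α ∈ (univ.image l)ᶜ
  · rw [if_pos hα, Finset.mul_sum, this (((univ.image l)ᶜ).erase α)]
    apply Finset.sum_congr rfl
    intro β _
    by_cases hβ : β ∈ ((univ.image l)ᶜ).erase α
    · rw [if_pos ⟨hα, hβ⟩, if_pos hβ]; ring
    · rw [if_neg (fun h => hβ h.2), if_neg hβ]
  · rw [if_neg hα]
    apply Finset.sum_eq_zero
    intro β _
    rw [if_neg (fun h => hα h.1)]

end base

end Pool.Agent.H567
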