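import Mathlib

set_option autoImplicit false
set_option linter.unusedSectionVars false

namespace Pool.Agent.H567

open Matrix Polynomial

variable {K : Type*} [Field K] {ι : Type*} [Fintype ι] [DecidableEq ι]

/-- The pencil `B + X * N` as a matrix of polynomials. -/
noncomputable def pencil (B N : Matrix ι ι K) : Matrix ι ι K[X] :=
  B.map C + (X : K[X]) • N.map C

lemma pencil_apply (B N : Matrix ι ι K) (i j : ι) :
    pencil B N i j = C (B i j) + X * C (N i j) := by
  simp [pencil]

lemma eval_pencil (B N : Matrix ι ι K) (t : K) :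
    (pencil B N).map (Polynomial.eval t) = B + t • N := by
  ext i j
  simp [pencil_apply]
  ring

lemma eval_det_pencil (B N : Matrix ι ι K) (t : K) :
    (pencil B N).det.eval t = (B + t • N).det := by
  rw [← eval_pencil B N t, ← Polynomial.coe_evalRingHom, RingHom.map_det]
  rfl

lemma eval_adj_pencil (B N : Matrix ι ι K) (i j : ι) :
    ((pencil B N).adjugate i j).coeff 0 = B.adjugate i j := by
  have h := RingHom.map_adjugate (Polynomial.evalRingHom (0 : K)) (pencil B N)
  have h2 : (Polynomial.evalRingHom (0:K)).mapMatrix (pencil B N) = B := by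
    have := eval_pencil B N 0
    simp only [zero_smul, add_zero] at this
    exact this
  rw [h2] at h
  rw [← h]
  simp [Polynomial.coeff_zero_eq_eval_zero]

/-- First order expansion of the determinant along a kernel vector. -/
lemma coeff_one_det_pencil {B N : Matrix ι ι K} {v : ι → K} (hv : B *ᵥ v = 0) (i : ι) :
    (pencil B N).det.coeff 1 * v i = (B.adjugate *ᵥ (N *ᵥ v)) i := by
  have key : (pencil B N).det • (fun i => C (v i) : ι → K[X])
      = (X : K[X]) • ((pencil B N).adjugate *ᵥ (fun i => C ((N *ᵥ v) i))) := by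
    have h1 : pencil B N *ᵥ (fun i => C (v i)) = (X : K[X]) • (fun i => C ((N *ᵥ v) i)) := by
      funext k
      have hk : ∑ j, B k j * v j = 0 := by
        have := congrFun hv k
        simpa [Matrix.mulVec, dotProduct] using this
      simp only [Matrix.mulVec, dotProduct, pencil_apply, Pi.smul_apply, smul_eq_mul, add_mul,
        Finset.sum_add_distrib, ← C_mul]
      rw [← map_sum, hk, map_zero, zero_add, map_sum, Finset.mul_sum]
      apply Finset.sum_congr rfl
      intro j _
      rw [C_mul]; ring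
    have h2 : (pencil B N).adjugate *ᵥ (pencil B N *ᵥ (fun i => C (v i)))
        = (pencil B N).det • (fun i => C (v i) : ι → K[X]) := by
      rw [Matrix.mulVec_mulVec, Matrix.adjugate_mul, Matrix.smul_mulVec, Matrix.one_mulVec]
    rw [← h2, h1, Matrix.mulVec_smul]
  have h := congrArg (fun p : K[X] => p.coeff 1) (congrFun key i)
  simp only [Pi.smul_apply, smul_eq_mul] at h
  rw [Polynomial.coeff_mul_C, mul_comm X, Polynomial.coeff_mul_X] at h
  rw [h]
  simp only [Matrix.mulVec, dotProduct, Polynomial.finsetSum_coeff, Polynomial.coeff_mul_C,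
    eval_adj_pencil]

/-- Second order expansion of the determinant along a kernel vector. -/
lemma coeff_two_det_pencil {B N : Matrix ι ι K} {v z : ι → K} (hv : B *ᵥ v = 0)
    (hz : B *ᵥ z = N *ᵥ v) (h1 : (pencil B N).det.coeff 1 = 0) (i : ι) :
    (pencil B N).det.coeff 2 * v i = - (B.adjugate *ᵥ (N *ᵥ z)) i := by
  have key : (pencil B N).det • (fun i => C (v i) - X * C (z i) : ι → K[X])
      = (-(X : K[X])^2) • ((pencil B N).adjugate *ᵥ (fun i => C ((N *ᵥ z) i))) := by
    have h1 : pencil B N *ᵥ (fun i => C (v i) - X * C (z i))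
        = (-(X : K[X])^2) • (fun i => C ((N *ᵥ z) i)) := by
      funext k
      have hk : ∑ j, B k j * v j = 0 := by
        have := congrFun hv k
        simpa [Matrix.mulVec, dotProduct] using this
      have hk2 : ∑ j, B k j * z j = ∑ j, N k j * v j := by
        have := congrFun hz k
        simpa [Matrix.mulVec, dotProduct] using this
      have e1 : ∀ j, (C (B k j) + X * C (N k j)) * (C (v j) - X * C (z j))
          = C (B k j * v j) + X * C (N k j * v j) - X * C (B k j * z j)
            - X^2 * C (N k j * z j) := by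
        intro j
        simp only [C_mul]; ring
      simp only [Matrix.mulVec, dotProduct, pencil_apply, Pi.smul_apply, smul_eq_mul, e1,
        Finset.sum_add_distrib, Finset.sum_sub_distrib, ← Finset.mul_sum, ← map_sum, hk, hk2,
        map_zero]
      ring
    have h2 : (pencil B N).adjugate *ᵥ (pencil B N *ᵥ (fun i => C (v i) - X * C (z i)))
        = (pencil B N).det • (fun i => C (v i) - X * C (z i) : ι → K[X]) := by
      rw [Matrix.mulVec_mulVec, Matrix.adjugate_mul, Matrix.smul_mulVec, Matrix.one_mulVec]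
    rw [← h2, h1, Matrix.mulVec_smul]
  have h := congrArg (fun p : K[X] => p.coeff 2) (congrFun key i)
  simp only [Pi.smul_apply, smul_eq_mul] at h
  have l1 : ((pencil B N).det * (C (v i) - X * C (z i))).coeff 2
      = (pencil B N).det.coeff 2 * v i := by
    have : (pencil B N).det * (C (v i) - X * C (z i))
        = (pencil B N).det * C (v i) - ((pencil B N).det * C (z i)) * X := by ring
    rw [this, Polynomial.coeff_sub, Polynomial.coeff_mul_C, Polynomial.coeff_mul_X,
      Polynomial.coeff_mul_C, h1]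
    ring
  rw [l1] at h
  rw [h]
  have l2 : ∀ p : K[X], ((-(X : K[X])^2) * p).coeff 2 = - p.coeff 0 := by
    intro p
    have : (-(X : K[X])^2) * p = -((p * X) * X) := by ring
    rw [this, Polynomial.coeff_neg, Polynomial.coeff_mul_X, Polynomial.coeff_mul_X]
  rw [l2]
  simp only [Matrix.mulVec, dotProduct, Polynomial.finsetSum_coeff, Polynomial.coeff_mul_C,
    eval_adj_pencil]


/-- If the kernel of `M` contains a vector which is not a multiple of `v`, the adjugate vanishes. -/
lemma adjugate_eq_zero_of_ker {M : Matrix ι ι K} {v c : ι → K} (hv : M *ᵥ v = 0)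
    (hc : M *ᵥ c = 0) (hv0 : v ≠ 0) (hind : ∀ a : K, c ≠ a • v) : M.adjugate = 0 := by
  ext i j
  rw [Matrix.adjugate_apply, Matrix.zero_apply]
  -- find a nonzero vector `x` in the kernel with `x i = 0`
  obtain ⟨x, hx0, hxi, hMx⟩ : ∃ x : ι → K, x ≠ 0 ∧ x i = 0 ∧ M *ᵥ x = 0 := by
    by_cases hvi : v i = 0
    · exact ⟨v, hv0, hvi, hv⟩
    · refine ⟨c - (c i / v i) • v, ?_, ?_, ?_⟩
      · intro h
        exact hind (c i / v i) (sub_eq_zero.mp h)
      · simp [Pi.sub_apply, Pi.smul_apply, smul_eq_mul]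
        field_simp
        ring
      · rw [Matrix.mulVec_sub, Matrix.mulVec_smul, hv, hc]
        simp
  apply Matrix.exists_mulVec_eq_zero_iff.mp
  refine ⟨x, hx0, ?_⟩
  funext k
  by_cases hk : k = j
  · subst hk
    simp [Matrix.mulVec, Matrix.updateRow_self, hxi]
  · have := congrFun hMx k
    simpa [Matrix.mulVec, Matrix.updateRow_ne hk] using this

/-- The adjugate of a matrix with kernel vector `v` and left kernel vector `u` is a multiple of
`v uᵀ`. -/
lemma adjugate_eq_smul_vecMulVec {M : Matrix ι ι K} {v u : ι → K} (hv : M *ᵥ v = 0)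
    (hu : u ᵥ* M = 0) (hv0 : v ≠ 0) (hu0 : u ≠ 0) :
    ∃ κ : K, M.adjugate = κ • Matrix.vecMulVec v u := by
  have hdet : M.det = 0 := Matrix.exists_mulVec_eq_zero_iff.mp ⟨v, hv0, hv⟩
  by_cases hadj : M.adjugate = 0
  · exact ⟨0, by simp [hadj]⟩
  -- columns are multiples of v
  have hcol : ∀ j, ∃ a : K, (fun i => M.adjugate i j) = a • v := by
    intro j
    by_contra hcon
    push Not at hcon
    apply hadj
    apply adjugate_eq_zero_of_ker hv _ hv0 hcon
    have h := Matrix.mul_adjugate M
    rw [hdet, zero_smul] at h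
    funext k
    have := congrFun (congrFun h k) j
    simpa [Matrix.mul_apply, Matrix.mulVec, dotProduct] using this
  have hrow : ∀ i, ∃ a : K, (fun j => M.adjugate i j) = a • u := by
    intro i
    by_contra hcon
    push Not at hcon
    apply hadj
    have hu' : Mᵀ *ᵥ u = 0 := by rw [Matrix.mulVec_transpose]; exact hu
    have : Mᵀ.adjugate = 0 := by
      apply adjugate_eq_zero_of_ker hu' _ hu0 hcon
      have h := Matrix.adjugate_mul M
      rw [hdet, zero_smul] at h
      rw [Matrix.mulVec_transpose]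
      funext k
      have := congrFun (congrFun h i) k
      simpa [Matrix.mul_apply, Matrix.vecMul, dotProduct] using this
    rw [← Matrix.adjugate_transpose] at this
    simpa using this
  choose g hg using hcol
  choose h hh using hrow
  obtain ⟨i₀, hi₀⟩ : ∃ i, v i ≠ 0 := by
    by_contra hcon
    push Not at hcon
    exact hv0 (funext hcon)
  refine ⟨h i₀ / v i₀, ?_⟩
  have hgj : ∀ j, g j = h i₀ / v i₀ * u j := by
    intro j
    have e1 := congrFun (hg j) i₀
    have e2 := congrFun (hh i₀) j
    simp only [Pi.smul_apply, smul_eq_mul] at e1 e2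
    have : g j * v i₀ = h i₀ * u j := by rw [← e1, ← e2]
    field_simp
    linear_combination this
  ext i j
  have e1 := congrFun (hg j) i
  simp only [Pi.smul_apply, smul_eq_mul] at e1
  rw [e1, hgj j]
  simp [Matrix.vecMulVec_apply]
  ring

/-- If a singular matrix has vanishing adjugate, the determinant of any pencil through it vanishes
to second order. -/
lemma coeff_one_det_pencil_of_adjugate_eq_zero [Nonempty ι] {B N : Matrix ι ι K}
    (hadj : B.adjugate = 0) (hdet : B.det = 0) : (pencil B N).det.coeff 1 = 0 := by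
  -- adj (pencil) = X * R
  have hdiv : ∀ i j, ∃ r : K[X], (pencil B N).adjugate i j = X * r := by
    intro i j
    have : X ∣ (pencil B N).adjugate i j := by
      rw [Polynomial.X_dvd_iff, eval_adj_pencil, hadj]
      rfl
    exact this
  choose r hr using hdiv
  have hD0 : (pencil B N).det.coeff 0 = 0 := by
    rw [Polynomial.coeff_zero_eq_eval_zero, eval_det_pencil]
    simp [hdet]
  obtain ⟨D, hD⟩ : X ∣ (pencil B N).det := Polynomial.X_dvd_iff.mpr hD0
  by_contra hne
  have hDc : D.coeff 0 ≠ 0 := by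
    rw [hD, mul_comm, Polynomial.coeff_mul_X] at hne
    exact hne
  have hmul : pencil B N * (Matrix.of r) = D • (1 : Matrix ι ι K[X]) := by
    have h := Matrix.mul_adjugate (pencil B N)
    have h2 : (pencil B N).adjugate = (X : K[X]) • Matrix.of r := by
      ext i j : 1
      rw [hr]; rfl
    rw [h2, hD, Matrix.mul_smul, mul_smul] at h
    ext i j : 1
    have h3 := congrFun (congrFun h i) j
    simp only [Matrix.smul_apply, smul_eq_mul] at h3
    have := mul_left_cancel₀ Polynomial.X_ne_zero h3
    simpa using this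
  have hev := congrArg (fun P : Matrix ι ι K[X] => P.map (Polynomial.eval 0)) hmul
  have h4 : B * (Matrix.of r).map (Polynomial.eval 0) = (D.eval 0) • (1 : Matrix ι ι K) := by
    have e1 : (pencil B N * Matrix.of r).map (Polynomial.eval 0)
        = (pencil B N).map (Polynomial.eval 0) * (Matrix.of r).map (Polynomial.eval 0) := by
      rw [← Polynomial.coe_evalRingHom, Matrix.map_mul]
    have e2 : (D • (1 : Matrix ι ι K[X])).map (Polynomial.eval 0)
        = (D.eval 0) • (1 : Matrix ι ι K) := by
      ext i j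
      by_cases hij : i = j
      · subst hij; simp
      · simp [Matrix.one_apply_ne hij]
    simp only [e1, e2, eval_pencil, zero_smul, add_zero] at hev
    exact hev
  have h5 := congrArg Matrix.det h4
  rw [Matrix.det_mul, hdet, zero_mul, Matrix.det_smul, Matrix.det_one, mul_one] at h5
  have : D.eval 0 = 0 := by
    by_contra hne0
    exact (pow_ne_zero _ hne0) h5.symm
  rw [← Polynomial.coeff_zero_eq_eval_zero] at this
  exact hDc this


/-- A totally isotropic subspace for a nondegenerate form has at most half the dimension. -/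
lemma finrank_isotropic_le {X : Type*} [AddCommGroup X] [Module K X] [FiniteDimensional K X]
    (Ω : X →ₗ[K] Module.Dual K X) (hΩ : Function.Injective Ω) (F : Submodule K X)
    (hF : ∀ x ∈ F, ∀ y ∈ F, Ω x y = 0) :
    2 * Module.finrank K F ≤ Module.finrank K X := by
  have h1 : F.map Ω ≤ F.dualAnnihilator := by
    rintro _ ⟨x, hx, rfl⟩
    rw [Submodule.mem_dualAnnihilator]
    intro y hy
    exact hF x hx y hy
  have h2 : Module.finrank K (F.map Ω) = Module.finrank K F :=
    (LinearEquiv.finrank_eq (Submodule.equivMapOfInjective Ω hΩ F)).symm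
  have h3 := Submodule.finrank_mono h1
  have h4 := Subspace.finrank_add_finrank_dualAnnihilator_eq F
  omega


/-- Main linear algebra lemma: if `det (B + L w)` has no linear and no quadratic part on `V`, while
`B` is a smooth point of the determinantal hypersurface, then the determinant is singular
(relative to `V`) along a subspace of codimension at most `card ι - 1`. -/
theorem exists_singular_subspace {V : Type*} [AddCommGroup V] [Module K V] [FiniteDimensional K V]
    (B : Matrix ι ι K) (hB : B.det = 0) (N₀ : Matrix ι ι K)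
    (hN₀ : (pencil B N₀).det.coeff 1 ≠ 0)
    (L : V →ₗ[K] Matrix ι ι K)
    (hL1 : ∀ w, (pencil B (L w)).det.coeff 1 = 0)
    (hL2 : ∀ w, (pencil B (L w)).det.coeff 2 = 0) :
    ∃ W : Submodule K V, Module.finrank K V + 1 ≤ Module.finrank K W + Fintype.card ι ∧
      ∀ w ∈ W, ∀ v : V, (pencil (B + L w) (L v)).det.coeff 1 = 0 := by
  classical
  have hne : Nonempty ι := by
    by_contra hem
    rw [not_nonempty_iff] at hem
    rw [Matrix.det_isEmpty] at hB
    exact one_ne_zero hB
  have hadj : B.adjugate ≠ 0 := fun h => hN₀ (coeff_one_det_pencil_of_adjugate_eq_zero h hB)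
  obtain ⟨v, hv0, hv⟩ := Matrix.exists_mulVec_eq_zero_iff.mpr hB
  obtain ⟨u, hu0, hu⟩ := Matrix.exists_vecMul_eq_zero_iff.mpr hB
  obtain ⟨κ, hκ⟩ := adjugate_eq_smul_vecMulVec hv hu hv0 hu0
  have hκ0 : κ ≠ 0 := by
    rintro rfl
    exact hadj (by rw [hκ, zero_smul])
  obtain ⟨j₀, hj₀⟩ : ∃ i, v i ≠ 0 := by
    by_contra hcon
    push Not at hcon
    exact hv0 (funext hcon)
  obtain ⟨i₀, hi₀⟩ : ∃ i, u i ≠ 0 := by
    by_contra hcon
    push Not at hcon
    exact hu0 (funext hcon)
  -- the linear form `a` vanishes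
  have ha : ∀ w, u ⬝ᵥ (L w *ᵥ v) = 0 := by
    intro w
    have h := coeff_one_det_pencil (N := L w) hv j₀
    rw [hL1 w, zero_mul, hκ, Matrix.smul_mulVec, Matrix.vecMulVec_mulVec] at h
    simp only [Pi.smul_apply, smul_eq_mul, MulOpposite.smul_eq_mul_unop,
      MulOpposite.unop_op] at h
    have h' := h.symm
    rcases mul_eq_zero.mp h' with h1 | h1
    · exact absurd h1 hκ0
    · rcases mul_eq_zero.mp h1 with h2 | h2
      · exact absurd h2 hj₀
      · exact h2
  -- an invertible rank one modification of `B`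
  set p : ι → K := Pi.single i₀ 1 with hp
  set q : ι → K := Pi.single j₀ 1 with hq
  have hup : u ⬝ᵥ p = u i₀ := by simp [hp]
  have hqv : q ⬝ᵥ v = v j₀ := by simp [hq]
  set B' : Matrix ι ι K := B + Matrix.vecMulVec p q with hB'
  have hB'v : ∀ x, B' *ᵥ x = B *ᵥ x + (q ⬝ᵥ x) • p := by
    intro x
    rw [hB', Matrix.add_mulVec, Matrix.vecMulVec_mulVec]
    congr 1
    funext k
    simp [mul_comm]
  have huB : ∀ x, u ⬝ᵥ (B *ᵥ x) = 0 := by
    intro x
    rw [Matrix.dotProduct_mulVec, hu]
    simp
  have huB' : ∀ x, u ⬝ᵥ (B' *ᵥ x) = (q ⬝ᵥ x) * u i₀ := by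
    intro x
    rw [hB'v, dotProduct_add, huB, dotProduct_smul, hup, zero_add, smul_eq_mul]
  have hker : ∀ x, B *ᵥ x = 0 → ∃ a : K, x = a • v := by
    intro x hx
    by_contra hcon
    push Not at hcon
    exact hadj (adjugate_eq_zero_of_ker hv hx hv0 hcon)
  have hdetB' : IsUnit B'.det := by
    rw [isUnit_iff_ne_zero]
    intro h0
    obtain ⟨x, hx0, hx⟩ := Matrix.exists_mulVec_eq_zero_iff.mpr h0
    have h1 := huB' x
    rw [hx, dotProduct_zero] at h1
    have h2 : q ⬝ᵥ x = 0 := by
      rcases mul_eq_zero.mp h1.symm with h | h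
      · exact h
      · exact absurd h hi₀
    have h3 := hB'v x
    rw [hx, h2, zero_smul, add_zero] at h3
    obtain ⟨a, rfl⟩ := hker x h3.symm
    rw [dotProduct_smul, hqv, smul_eq_mul] at h2
    rcases mul_eq_zero.mp h2 with h | h
    · exact hx0 (by rw [h, zero_smul])
    · exact hj₀ h
  set G : Matrix ι ι K := B'⁻¹ with hG
  have hB'G : ∀ x, B' *ᵥ (G *ᵥ x) = x := by
    intro x
    rw [Matrix.mulVec_mulVec, hG, Matrix.mul_nonsing_inv _ hdetB', Matrix.one_mulVec]
  have hGB' : ∀ x, G *ᵥ (B' *ᵥ x) = x := by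
    intro x
    rw [Matrix.mulVec_mulVec, hG, Matrix.nonsing_inv_mul _ hdetB', Matrix.one_mulVec]
  have hBG : ∀ y, u ⬝ᵥ y = 0 → B *ᵥ (G *ᵥ y) = y := by
    intro y hy
    have h1 := huB' (G *ᵥ y)
    rw [hB'G, hy] at h1
    have h2 : q ⬝ᵥ (G *ᵥ y) = 0 := by
      rcases mul_eq_zero.mp h1.symm with h | h
      · exact h
      · exact absurd h hi₀
    have h3 := hB'v (G *ᵥ y)
    rw [hB'G, h2, zero_smul, add_zero] at h3
    exact h3.symm
  have hGp : G *ᵥ p = (v j₀)⁻¹ • v := by
    have h1 := hB'v v
    rw [hv, zero_add, hqv] at h1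
    have h2 := hGB' v
    rw [h1, Matrix.mulVec_smul] at h2
    have h3 : G *ᵥ p = (v j₀)⁻¹ • (v j₀ • G *ᵥ p) := by
      rw [smul_smul, inv_mul_cancel₀ hj₀, one_smul]
    exact h3.trans (by rw [h2])
  -- the two linear maps
  let c : V →ₗ[K] (ι → K) :=
    { toFun := fun w => L w *ᵥ v
      map_add' := fun x y => by rw [map_add, Matrix.add_mulVec]
      map_smul' := fun a x => by rw [map_smul, Matrix.smul_mulVec]; rfl }
  let b : V →ₗ[K] (ι → K) :=
    { toFun := fun w => u ᵥ* L w
      map_add' := fun x y => by rw [map_add, Matrix.vecMul_add]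
      map_smul' := fun a x => by rw [map_smul, Matrix.vecMul_smul]; rfl }
  have hc : ∀ w, c w = L w *ᵥ v := fun _ => rfl
  have hb : ∀ w, b w = u ᵥ* L w := fun _ => rfl
  have huc : ∀ w, u ⬝ᵥ c w = 0 := ha
  have hbv : ∀ w, b w ⬝ᵥ v = 0 := by
    intro w
    rw [hb, ← Matrix.dotProduct_mulVec]
    exact ha w
  have hbGc : ∀ w, b w ⬝ᵥ (G *ᵥ c w) = 0 := by
    intro w
    have hz : B *ᵥ (G *ᵥ c w) = L w *ᵥ v := hBG _ (huc w)
    have h := coeff_two_det_pencil (N := L w) hv hz (hL1 w) j₀
    rw [hL2 w, zero_mul, hκ, Matrix.smul_mulVec, Matrix.vecMulVec_mulVec] at h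
    simp only [Pi.smul_apply, smul_eq_mul, MulOpposite.smul_eq_mul_unop,
      MulOpposite.unop_op] at h
    have h' := neg_eq_zero.mp h.symm
    rw [hb, ← Matrix.dotProduct_mulVec]
    rcases mul_eq_zero.mp h' with h1 | h1
    · exact absurd h1 hκ0
    · rcases mul_eq_zero.mp h1 with h2 | h2
      · exact absurd h2 hj₀
      · exact h2
  have hpol : ∀ w w', b w ⬝ᵥ (G *ᵥ c w') + b w' ⬝ᵥ (G *ᵥ c w) = 0 := by
    intro w w'
    have h := hbGc (w + w')
    rw [map_add, map_add, Matrix.mulVec_add, add_dotProduct, dotProduct_add, dotProduct_add,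
      hbGc w, hbGc w'] at h
    linear_combination h
  -- the symmetric form
  let Ω : ((ι → K) × (ι → K)) →ₗ[K] Module.Dual K ((ι → K) × (ι → K)) :=
    LinearMap.mk₂ K (fun x y => x.1 ⬝ᵥ (G *ᵥ y.2) + y.1 ⬝ᵥ (G *ᵥ x.2))
      (fun x x' y => by
        simp only [Prod.fst_add, Prod.snd_add, add_dotProduct, Matrix.mulVec_add, dotProduct_add]
        ring)
      (fun a x y => by
        simp only [Prod.smul_fst, Prod.smul_snd, smul_dotProduct, Matrix.mulVec_smul,
          dotProduct_smul, smul_eq_mul]
        ring)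
      (fun x y y' => by
        simp only [Prod.fst_add, Prod.snd_add, add_dotProduct, Matrix.mulVec_add, dotProduct_add]
        ring)
      (fun a x y => by
        simp only [Prod.smul_fst, Prod.smul_snd, smul_dotProduct, Matrix.mulVec_smul,
          dotProduct_smul, smul_eq_mul]
        ring)
  have hΩ : ∀ x y, Ω x y = x.1 ⬝ᵥ (G *ᵥ y.2) + y.1 ⬝ᵥ (G *ᵥ x.2) := fun _ _ => rfl
  have hΩinj : Function.Injective Ω := by
    rw [injective_iff_map_eq_zero]
    intro x hx
    have e : ∀ y : (ι → K) × (ι → K), x.1 ⬝ᵥ (G *ᵥ y.2) + y.1 ⬝ᵥ (G *ᵥ x.2) = 0 := by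
      intro y
      rw [← hΩ, hx]; rfl
    have e1 : ∀ z, x.1 ⬝ᵥ z = 0 := by
      intro z
      have := e (0, B' *ᵥ z)
      simpa [hGB'] using this
    have e2 : ∀ z, z ⬝ᵥ (G *ᵥ x.2) = 0 := by
      intro z
      have := e (z, 0)
      simpa using this
    have f1 : x.1 = 0 := by
      funext i
      have := e1 (Pi.single i 1)
      simpa using this
    have f2 : G *ᵥ x.2 = 0 := by
      funext i
      have := e2 (Pi.single i 1)
      simpa using this
    have f3 : x.2 = 0 := by
      rw [← hB'G x.2, f2, Matrix.mulVec_zero]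
    exact Prod.ext f1 f3
  let T : (V × K) →ₗ[K] ((ι → K) × (ι → K)) :=
    { toFun := fun w => (b w.1, c w.1 + w.2 • p)
      map_add' := fun x y => by
        ext i
        · simp
        · simp only [Prod.fst_add, Prod.snd_add, map_add, add_smul, Pi.add_apply]
          ring
      map_smul' := fun a x => by
        ext i
        · simp
        · simp only [Prod.smul_fst, Prod.smul_snd, map_smul, Pi.add_apply, Pi.smul_apply,
            smul_eq_mul, RingHom.id_apply]
          ring }
  have hT : ∀ w, T w = (b w.1, c w.1 + w.2 • p) := fun _ => rfl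
  have hiso : ∀ x ∈ LinearMap.range T, ∀ y ∈ LinearMap.range T, Ω x y = 0 := by
    rintro _ ⟨w, rfl⟩ _ ⟨w', rfl⟩
    rw [hΩ, hT, hT]
    simp only [Matrix.mulVec_add, Matrix.mulVec_smul, dotProduct_add, dotProduct_smul, hGp, hbv,
      smul_eq_mul, mul_zero, add_zero]
    exact hpol _ _
  have hdim1 := finrank_isotropic_le Ω hΩinj _ hiso
  have hdim2 := LinearMap.finrank_range_add_finrank_ker T
  rw [Module.finrank_prod, Module.finrank_self] at hdim2
  rw [Module.finrank_prod, Module.finrank_fintype_fun_eq_card] at hdim1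
  -- the kernel of `T`
  let W : Submodule K V := LinearMap.ker b ⊓ LinearMap.ker c
  have hkerT : ∀ w : V × K, w ∈ LinearMap.ker T → w.2 = 0 ∧ w.1 ∈ W := by
    intro w hw
    rw [LinearMap.mem_ker, hT, Prod.mk_eq_zero] at hw
    obtain ⟨h1, h2⟩ := hw
    have h3 : w.2 = 0 := by
      have h4 : u ⬝ᵥ (c w.1 + w.2 • p) = 0 := by rw [h2, dotProduct_zero]
      rw [dotProduct_add, huc, dotProduct_smul, hup, zero_add, smul_eq_mul] at h4
      rcases mul_eq_zero.mp h4 with h | h
      · exact h
      · exact absurd h hi₀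
    rw [h3, zero_smul, add_zero] at h2
    exact ⟨h3, Submodule.mem_inf.mpr ⟨LinearMap.mem_ker.mpr h1, LinearMap.mem_ker.mpr h2⟩⟩
  have hdim3 : Module.finrank K (LinearMap.ker T) ≤ Module.finrank K W := by
    let φ : LinearMap.ker T →ₗ[K] W :=
      { toFun := fun w => ⟨w.1.1, (hkerT w.1 w.2).2⟩
        map_add' := fun x y => rfl
        map_smul' := fun a x => rfl }
    apply LinearMap.finrank_le_finrank_of_injective (f := φ)
    intro x y hxy
    have h1 : x.1.1 = y.1.1 := congrArg Subtype.val hxy
    have h2 : x.1.2 = y.1.2 := by rw [(hkerT x.1 x.2).1, (hkerT y.1 y.2).1]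
    exact Subtype.ext (Prod.ext h1 h2)
  refine ⟨W, by omega, ?_⟩
  intro w hw w'
  obtain ⟨hw1, hw2⟩ := Submodule.mem_inf.mp hw
  rw [LinearMap.mem_ker, hb] at hw1
  rw [LinearMap.mem_ker, hc] at hw2
  have hMv : (B + L w) *ᵥ v = 0 := by rw [Matrix.add_mulVec, hv, hw2, add_zero]
  have huM : u ᵥ* (B + L w) = 0 := by rw [Matrix.vecMul_add, hu, hw1, add_zero]
  obtain ⟨κ', hκ'⟩ := adjugate_eq_smul_vecMulVec hMv huM hv0 hu0
  have h := coeff_one_det_pencil (N := L w') hMv j₀
  rw [hκ', Matrix.smul_mulVec, Matrix.vecMulVec_mulVec, ha w'] at h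
  simp only [Pi.smul_apply, MulOpposite.op_zero, zero_smul, Pi.zero_apply, smul_eq_mul,
    mul_zero] at h
  rcases mul_eq_zero.mp h with h | h
  · exact h
  · exact absurd h hj₀

end Pool.Agent.H567
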