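import Mathlib
import Pool.Agent.H567.LinAlg
import Pool.Agent.H567.PermCount

set_option autoImplicit false
set_option linter.unusedSectionVars false

namespace Pool.Agent.H567

open Equiv Finset Polynomial

section coeffs

variable {K : Type*} [Field K] {α : Type*} [DecidableEq α]

lemma coeff_prod_one_add (s : Finset α) (g : α → K) :
    (∏ i ∈ s, (1 + X * C (g i) : K[X])).coeff 0 = 1 ∧
    (∏ i ∈ s, (1 + X * C (g i) : K[X])).coeff 1 = ∑ i ∈ s, g i ∧
    2 * (∏ i ∈ s, (1 + X * C (g i) : K[X])).coeff 2 = (∑ i ∈ s, g i)^2 - ∑ i ∈ s, (g i)^2 := by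
  induction s using Finset.induction_on with
  | empty => simp [Polynomial.coeff_one]
  | insert a s ha ih =>
    obtain ⟨h0, h1, h2⟩ := ih
    rw [Finset.prod_insert ha, Finset.sum_insert ha, Finset.sum_insert ha]
    set P := ∏ i ∈ s, (1 + X * C (g i) : K[X])
    have e : (1 + X * C (g a)) * P = P + (C (g a) * P) * X := by ring
    rw [e]
    refine ⟨?_, ?_, ?_⟩
    · simp [h0]
    · rw [Polynomial.coeff_add, Polynomial.coeff_mul_X, Polynomial.coeff_C_mul, h0, h1]; ring
    · rw [Polynomial.coeff_add, Polynomial.coeff_mul_X, Polynomial.coeff_C_mul, h1, mul_add, h2]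
      ring

lemma coeff_two_prod_one_add (s : Finset α) (g : α → K) :
    2 * (∏ i ∈ s, (1 + X * C (g i) : K[X])).coeff 2 = ∑ i ∈ s, ∑ j ∈ s.erase i, g i * g j := by
  rw [(coeff_prod_one_add s g).2.2]
  have : ∀ i ∈ s, ∑ j ∈ s.erase i, g i * g j = g i * (∑ j ∈ s, g j) - (g i)^2 := by
    intro i hi
    rw [Finset.sum_erase_eq_sub hi, ← Finset.mul_sum]; ring
  rw [Finset.sum_congr rfl this, Finset.sum_sub_distrib, ← Finset.sum_mul]
  ring

lemma coeff_one_prod (s : Finset α) (f g : α → K) :
    (∏ i ∈ s, (C (f i) + X * C (g i) : K[X])).coeff 0 = ∏ i ∈ s, f i ∧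
    (∏ i ∈ s, (C (f i) + X * C (g i) : K[X])).coeff 1 = ∑ i ∈ s, g i * ∏ j ∈ s.erase i, f j := by
  induction s using Finset.induction_on with
  | empty => simp [Polynomial.coeff_one]
  | insert a s ha ih =>
    obtain ⟨h0, h1⟩ := ih
    rw [Finset.prod_insert ha, Finset.prod_insert ha, Finset.sum_insert ha,
      Finset.erase_insert ha]
    set P := ∏ i ∈ s, (C (f i) + X * C (g i) : K[X])
    have e : (C (f a) + X * C (g a)) * P = C (f a) * P + (C (g a) * P) * X := by ring
    rw [e]
    refine ⟨?_, ?_⟩
    · simp [h0]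
    · rw [Polynomial.coeff_add, Polynomial.coeff_mul_X, Polynomial.coeff_C_mul,
        Polynomial.coeff_C_mul, h0, h1, add_comm, Finset.mul_sum]
      congr 1
      apply Finset.sum_congr rfl
      intro i hi
      have hne : a ≠ i := fun h => ha (h ▸ hi)
      rw [Finset.erase_insert_of_ne hne, Finset.prod_insert
        (fun h => ha (Finset.mem_of_mem_erase h))]
      ring

end coeffs

section expand

variable {K : Type*} [Field K] {κ : Type*} [Fintype κ] [DecidableEq κ]

/-- zero extension of a block of lower rows and neutral columns -/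
def extFun (w : Matrix κ (Option κ) K) : Option (Option κ) → Option (Option κ) → K
  | some (some i), some j => w i j
  | _, _ => 0

/-- zero extension of a block, as a linear map -/
def ext : Matrix κ (Option κ) K →ₗ[K] Matrix (Option (Option κ)) (Option (Option κ)) K where
  toFun w := Matrix.of (extFun w)
  map_add' x y := by
    ext i j
    rcases i with _ | _ | i <;> rcases j with _ | j <;> simp [extFun]
  map_smul' a x := by
    ext i j
    rcases i with _ | _ | i <;> rcases j with _ | j <;> simp [extFun]

/-- The base point. -/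
def baseFun (K : Type*) [Field K] (κ : Type*) [Fintype κ] :
    Option (Option κ) → Option (Option κ) → K
  | none, j => y1 K κ j
  | some none, j => y2 K κ j
  | some (some _), _ => 1

/-- The base point, as a matrix. -/
def base (K : Type*) [Field K] (κ : Type*) [Fintype κ] :
    Matrix (Option (Option κ)) (Option (Option κ)) K := Matrix.of (baseFun K κ)

/-- rows of the extension -/
def wb (w : Matrix κ (Option κ) K) (i : κ) : Option (Option κ) → K
  | none => 0
  | some j => w i j

lemma ext_low (w : Matrix κ (Option κ) K) (i : κ) (j : Option (Option κ)) :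
    ext w (low i) j = wb w i j := by
  rcases j with _ | j <;> rfl

lemma permanent_eq {n R : Type*} [Fintype n] [DecidableEq n] [CommSemiring R]
    (M : Matrix n n R) : M.permanent = ∑ σ : Perm n, ∏ i, M i (σ i) := by
  rw [← Matrix.permanent_transpose]; rfl

lemma perm_pencil (w v : Matrix κ (Option κ) K) :
    (pencil (base K κ + ext w) (ext v)).permanent
      = ∑ σ : Perm (Option (Option κ)), C (y1 K κ (σ none) * y2 K κ (σ (some none))) *
        ∏ i : κ, (C (1 + wb w i (σ (low i))) + X * C (wb v i (σ (low i)))) := by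
  rw [permanent_eq]
  apply Finset.sum_congr rfl
  intro σ _
  rw [Fintype.prod_option, Fintype.prod_option, ← mul_assoc]
  congr 1
  · simp only [pencil_apply, C_mul, Matrix.add_apply]
    have e1 : ∀ (w : Matrix κ (Option κ) K) j, ext w none j = 0 := fun w j => rfl
    have e2 : ∀ (w : Matrix κ (Option κ) K) j, ext w (some none) j = 0 := fun w j => rfl
    rw [e1, e1, e2, e2]
    simp [base, baseFun]
  · apply Finset.prod_congr rfl
    intro i _
    rw [pencil_apply, Matrix.add_apply]
    have e1 : (some (some i) : Option (Option κ)) = low i := rfl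
    rw [e1, ext_low, ext_low]
    rfl

lemma wb_smul (t : K) (w : Matrix κ (Option κ) K) (i : κ) (j : Option (Option κ)) :
    wb (t • w) i j = t * wb w i j := by
  rcases j with _ | j <;> simp [wb]

lemma wb_zero (i : κ) (j : Option (Option κ)) :
    wb (0 : Matrix κ (Option κ) K) i j = 0 := by
  rcases j with _ | j <;> simp [wb]

lemma wb_eq_sum (w : Matrix κ (Option κ) K) (i : κ) (x : Option (Option κ)) :
    wb w i x = ∑ j : Option κ, w i j * (if x = some j then 1 else 0) := by
  rcases x with _ | x
  · simp [wb]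
  · simp [wb]

/-- the polynomial expressing the directional derivative along a line -/
noncomputable def Qpoly (w v : Matrix κ (Option κ) K) : K[X] :=
  ∑ σ : Perm (Option (Option κ)), C (y1 K κ (σ none) * y2 K κ (σ (some none))) *
    ∑ i : κ, C (wb v i (σ (low i))) * ∏ i' ∈ univ.erase i, (1 + X * C (wb w i' (σ (low i'))))

lemma eval_Qpoly (w v : Matrix κ (Option κ) K) (t : K) :
    (Qpoly w v).eval t = ((pencil (base K κ + ext (t • w)) (ext v)).permanent).coeff 1 := by
  rw [perm_pencil, Qpoly, Polynomial.finsetSum_coeff, Polynomial.eval_finsetSum]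
  apply Finset.sum_congr rfl
  intro σ _
  rw [Polynomial.coeff_C_mul, (coeff_one_prod _ _ _).2]
  simp only [eval_mul, eval_C, Polynomial.eval_finsetSum, eval_prod, eval_add, eval_one, eval_X,
    wb_smul]


/-- the column weights -/
def yy (K : Type*) [Field K] (κ : Type*) [Fintype κ] (j : Option κ) : K := y1 K κ (some j)

lemma yy_none : yy K κ none = -(Fintype.card κ : K) := rfl
lemma yy_some (j : κ) : yy K κ (some j) = 1 := rfl

/-- abbreviation for the product of special row entries -/
def Y (K : Type*) [Field K] (κ : Type*) [Fintype κ] (σ : Perm (Option (Option κ))) : K :=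
  y1 K κ (σ none) * y2 K κ (σ (some none))

lemma sum_Y_zero : ∑ σ : Perm (Option (Option κ)), Y K κ σ = 0 := by
  obtain ⟨N, hN, -⟩ := exists_card_prescribed 2 (Option (Option κ))
  have h := sum_prescribed (K := K) (κ := κ) (a := 0) (N := N) hN (fun c => c.elim0)
    (fun c => c.elim0) (fun c => c.elim0) (fun c => c.elim0)
  have e : (univ.image (fun c : Fin 0 => (c.elim0 : Option (Option κ)))) = ∅ := by
    simp
  rw [e, Z_eq ∅ (by simp)] at h
  simpa [Y] using h

lemma exists_one : ∃ N : ℕ, (1 ≤ Fintype.card κ → N ≠ 0) ∧ ∀ (i : κ) (j : Option κ),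
    ∑ σ : Perm (Option (Option κ)), (if σ (low i) = some j then Y K κ σ else 0)
      = -((N : K) * yy K κ j) := by
  obtain ⟨N, hN, hN0⟩ := exists_card_prescribed 3 (Option (Option κ))
  refine ⟨N, fun h => hN0 (by simp; omega), ?_⟩
  intro i j
  have h := sum_prescribed (K := K) (κ := κ) (a := 1) (N := N) hN (fun _ => i)
    (fun _ _ _ => Subsingleton.elim _ _) (fun _ => some j) (fun _ _ _ => Subsingleton.elim _ _)
  have e : (univ.image (fun _ : Fin 1 => (some j : Option (Option κ)))) = {some j} := by
    ext x; simp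
  rw [e, Z_eq {some j} (by simp)] at h
  simp only [Fin.forall_fin_one, card_singleton, sum_singleton] at h
  have h' : ∑ σ : Perm (Option (Option κ)), (if σ (low i) = some j then Y K κ σ else 0)
      = (N : K) * (((1 : ℕ) : K) - 2) * y1 K κ (some j) := by
    rw [mul_assoc, ← h]; rfl
  rw [h', yy]
  push_cast
  ring

lemma two_zero {i i' : κ} (hi : i ≠ i') (j j' : Option κ) :
    ∑ σ : Perm (Option (Option κ)),
      (if σ (low i) = some j ∧ σ (low i') = some j' then Y K κ σ else 0) = 0 := by
  by_cases hj : j = j'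
  · apply Finset.sum_eq_zero
    intro σ _
    rw [if_neg]
    rintro ⟨h1, h2⟩
    rw [← hj, ← h1] at h2
    exact hi (low_injective (σ.injective h2)).symm
  · obtain ⟨N, hN, -⟩ := exists_card_prescribed 4 (Option (Option κ))
    have hr : Function.Injective (![i, i'] : Fin 2 → κ) := by
      intro a b h
      fin_cases a <;> fin_cases b <;> simp_all
    have hl : Function.Injective (![some j, some j'] : Fin 2 → Option (Option κ)) := by
      intro a b h
      fin_cases a <;> fin_cases b <;> simp_all
    have h := sum_prescribed (K := K) (κ := κ) (a := 2) (N := N) hN ![i, i'] hr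
      ![some j, some j'] hl
    have e : (univ.image (![some j, some j'] : Fin 2 → Option (Option κ))) = {some j, some j'} := by
      ext x
      simp [Fin.exists_fin_two, eq_comm]
    have hc : ({some j, some j'} : Finset (Option (Option κ))).card = 2 :=
      Finset.card_pair (by simpa using hj)
    rw [e, Z_eq _ (by simp), hc] at h
    simp only [Fin.forall_fin_two] at h
    have h' : ∑ σ : Perm (Option (Option κ)),
      (if σ (low i) = some j ∧ σ (low i') = some j' then Y K κ σ else 0)
        = (N : K) * ((((2 : ℕ) : K) - 2) * ∑ a ∈ {some j, some j'}, y1 K κ a) := by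
      rw [← h]; rfl
    rw [h']
    push_cast
    ring

lemma exists_three : ∃ N : ℕ, (3 ≤ Fintype.card κ → N ≠ 0) ∧
    ∀ (i i' i'' : κ), i ≠ i' → i ≠ i'' → i' ≠ i'' → ∀ (j j' j'' : Option κ),
    ∑ σ : Perm (Option (Option κ)),
      (if σ (low i) = some j ∧ σ (low i') = some j' ∧ σ (low i'') = some j'' then
        Y K κ σ else 0)
      = if j ≠ j' ∧ j ≠ j'' ∧ j' ≠ j'' then (N : K) * (yy K κ j + yy K κ j' + yy K κ j'') else 0 := by
  obtain ⟨N, hN, hN0⟩ := exists_card_prescribed 5 (Option (Option κ))
  refine ⟨N, fun h => hN0 (by simp; omega), ?_⟩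
  intro i i' i'' hi1 hi2 hi3 j j' j''
  by_cases hj : j ≠ j' ∧ j ≠ j'' ∧ j' ≠ j''
  · rw [if_pos hj]
    obtain ⟨hj1, hj2, hj3⟩ := hj
    have hr : Function.Injective (![i, i', i''] : Fin 3 → κ) := by
      intro a b h
      fin_cases a <;> fin_cases b <;> simp_all
    have hl : Function.Injective (![some j, some j', some j''] : Fin 3 → Option (Option κ)) := by
      intro a b h
      fin_cases a <;> fin_cases b <;> simp_all
    have h := sum_prescribed (K := K) (κ := κ) (a := 3) (N := N) hN ![i, i', i''] hr
      ![some j, some j', some j''] hl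
    have e : (univ.image (![some j, some j', some j''] : Fin 3 → Option (Option κ)))
        = {some j, some j', some j''} := by
      ext x
      simp only [mem_image, mem_univ, true_and, mem_insert, mem_singleton]
      constructor
      · rintro ⟨c, rfl⟩
        fin_cases c <;> simp
      · rintro (rfl | rfl | rfl)
        · exact ⟨0, rfl⟩
        · exact ⟨1, rfl⟩
        · exact ⟨2, rfl⟩
    have hc : ({some j, some j', some j''} : Finset (Option (Option κ))).card = 3 := by
      rw [Finset.card_eq_three]
      exact ⟨_, _, _, by simpa using hj1, by simpa using hj2, by simpa using hj3, rfl⟩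
    rw [e, Z_eq _ (by simp), hc] at h
    simp only [Fin.forall_fin_succ, IsEmpty.forall_iff, and_true] at h
    have hs : ∑ a ∈ {some j, some j', some j''}, y1 K κ a
        = yy K κ j + yy K κ j' + yy K κ j'' := by
      rw [Finset.sum_insert, Finset.sum_insert, Finset.sum_singleton]
      · simp only [yy]; ring
      · simpa using hj3
      · simp [hj1, hj2]
    have h' : ∑ σ : Perm (Option (Option κ)),
      (if σ (low i) = some j ∧ σ (low i') = some j' ∧ σ (low i'') = some j'' then
        Y K κ σ else 0)
        = (N : K) * ((((3 : ℕ) : K) - 2) * ∑ a ∈ {some j, some j', some j''}, y1 K κ a) := by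
      rw [← h]; rfl
    rw [h', hs]
    push_cast
    ring
  · rw [if_neg hj]
    apply Finset.sum_eq_zero
    intro σ _
    rw [if_neg]
    rintro ⟨h1, h2, h3⟩
    apply hj
    refine ⟨?_, ?_, ?_⟩
    · rintro rfl
      rw [← h1] at h2
      exact hi1 (low_injective (σ.injective h2)).symm
    · rintro rfl
      rw [← h1] at h3
      exact hi2 (low_injective (σ.injective h3)).symm
    · rintro rfl
      rw [← h2] at h3
      exact hi3 (low_injective (σ.injective h3)).symm


lemma perm_pencil_zero (w : Matrix κ (Option κ) K) :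
    (pencil (base K κ) (ext w)).permanent
      = ∑ σ : Perm (Option (Option κ)), C (Y K κ σ) *
        ∏ i : κ, (1 + X * C (wb w i (σ (low i)))) := by
  have h := perm_pencil (0 : Matrix κ (Option κ) K) w
  rw [map_zero, add_zero] at h
  rw [h]
  simp only [wb_zero, add_zero, C_1]
  rfl

lemma coeff_zero_perm (w : Matrix κ (Option κ) K) :
    (pencil (base K κ) (ext w)).permanent.coeff 0 = 0 := by
  rw [perm_pencil_zero, Polynomial.finsetSum_coeff]
  simp only [Polynomial.coeff_C_mul, (coeff_prod_one_add _ _).1, mul_one]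
  exact sum_Y_zero

lemma coeff_one_perm : ∃ N : ℕ, (1 ≤ Fintype.card κ → N ≠ 0) ∧
    ∀ w : Matrix κ (Option κ) K, (pencil (base K κ) (ext w)).permanent.coeff 1
      = -((N : K) * ∑ i, ∑ j, yy K κ j * w i j) := by
  obtain ⟨N, hN0, hN⟩ := exists_one (K := K) (κ := κ)
  refine ⟨N, hN0, ?_⟩
  intro w
  rw [perm_pencil_zero, Polynomial.finsetSum_coeff]
  simp only [Polynomial.coeff_C_mul, (coeff_prod_one_add _ _).2.1]
  have e : ∀ σ : Perm (Option (Option κ)), Y K κ σ * ∑ i, wb w i (σ (low i))
      = ∑ i, ∑ j, w i j * (if σ (low i) = some j then Y K κ σ else 0) := by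
    intro σ
    rw [Finset.mul_sum]
    apply Finset.sum_congr rfl
    intro i _
    rw [wb_eq_sum, Finset.mul_sum]
    apply Finset.sum_congr rfl
    intro j _
    split_ifs <;> ring
  rw [Finset.sum_congr rfl (fun σ _ => e σ), Finset.sum_comm, Finset.mul_sum,
    ← Finset.sum_neg_distrib]
  apply Finset.sum_congr rfl
  intro i _
  rw [Finset.sum_comm, Finset.mul_sum, ← Finset.sum_neg_distrib]
  apply Finset.sum_congr rfl
  intro j _
  rw [← Finset.mul_sum, hN i j]
  ring

lemma coeff_two_perm [CharZero K] (w : Matrix κ (Option κ) K) :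
    (pencil (base K κ) (ext w)).permanent.coeff 2 = 0 := by
  have h2 : 2 * (pencil (base K κ) (ext w)).permanent.coeff 2 = 0 := by
    rw [perm_pencil_zero, Polynomial.finsetSum_coeff, Finset.mul_sum]
    have e : ∀ σ : Perm (Option (Option κ)),
        2 * (C (Y K κ σ) * ∏ i : κ, (1 + X * C (wb w i (σ (low i))))).coeff 2
        = ∑ i, ∑ i' ∈ univ.erase i, ∑ j, ∑ j', w i j * w i' j' *
          (if σ (low i) = some j ∧ σ (low i') = some j' then Y K κ σ else 0) := by
      intro σ
      rw [Polynomial.coeff_C_mul, mul_left_comm, coeff_two_prod_one_add, Finset.mul_sum]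
      apply Finset.sum_congr rfl
      intro i _
      rw [Finset.mul_sum]
      apply Finset.sum_congr rfl
      intro i' _
      rw [wb_eq_sum, wb_eq_sum, Finset.sum_mul_sum, Finset.mul_sum]
      apply Finset.sum_congr rfl
      intro j _
      rw [Finset.mul_sum]
      apply Finset.sum_congr rfl
      intro j' _
      by_cases h1 : σ (low i) = some j <;> by_cases h2 : σ (low i') = some j' <;>
        simp [h1, h2]
      ring
    rw [Finset.sum_congr rfl (fun σ _ => e σ), Finset.sum_comm]
    apply Finset.sum_eq_zero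
    intro i _
    rw [Finset.sum_comm]
    apply Finset.sum_eq_zero
    intro i' hi'
    rw [Finset.sum_comm]
    apply Finset.sum_eq_zero
    intro j _
    rw [Finset.sum_comm]
    apply Finset.sum_eq_zero
    intro j' _
    rw [← Finset.mul_sum, two_zero (Finset.ne_of_mem_erase hi').symm, mul_zero]
  exact (mul_eq_zero.mp h2).resolve_left two_ne_zero

/-- The cubic form (second order part of the directional derivative). -/
lemma coeff_two_Qpoly : ∃ N : ℕ, (3 ≤ Fintype.card κ → N ≠ 0) ∧
    ∀ w v : Matrix κ (Option κ) K, 2 * (Qpoly w v).coeff 2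
      = (N : K) * ∑ i, ∑ j, v i j * ∑ i' ∈ univ.erase i, ∑ i'' ∈ (univ.erase i).erase i',
          ∑ j' ∈ univ.erase j, ∑ j'' ∈ (univ.erase j).erase j',
            (yy K κ j + yy K κ j' + yy K κ j'') * (w i' j' * w i'' j'') := by
  obtain ⟨N, hN0, hN⟩ := exists_three (K := K) (κ := κ)
  refine ⟨N, hN0, ?_⟩
  intro w v
  rw [Qpoly, Polynomial.finsetSum_coeff, Finset.mul_sum]
  have e : ∀ σ : Perm (Option (Option κ)),
      2 * (C (y1 K κ (σ none) * y2 K κ (σ (some none))) *
        ∑ i : κ, C (wb v i (σ (low i))) *
          ∏ i' ∈ univ.erase i, (1 + X * C (wb w i' (σ (low i'))))).coeff 2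
      = ∑ i, ∑ i' ∈ univ.erase i, ∑ i'' ∈ (univ.erase i).erase i', ∑ j, ∑ j', ∑ j'',
          v i j * (w i' j' * w i'' j'') *
          (if σ (low i) = some j ∧ σ (low i') = some j' ∧ σ (low i'') = some j'' then
            Y K κ σ else 0) := by
    intro σ
    rw [Polynomial.coeff_C_mul, mul_left_comm, Polynomial.finsetSum_coeff, Finset.mul_sum,
      Finset.mul_sum]
    apply Finset.sum_congr rfl
    intro i _
    rw [Polynomial.coeff_C_mul, mul_left_comm (2 : K), coeff_two_prod_one_add, Finset.mul_sum,
      Finset.mul_sum]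
    apply Finset.sum_congr rfl
    intro i' _
    rw [Finset.mul_sum, Finset.mul_sum]
    apply Finset.sum_congr rfl
    intro i'' _
    rw [wb_eq_sum v, wb_eq_sum w i', wb_eq_sum w i'', Finset.sum_mul_sum, Finset.sum_mul,
      Finset.mul_sum]
    apply Finset.sum_congr rfl
    intro j _
    rw [Finset.mul_sum, Finset.mul_sum]
    apply Finset.sum_congr rfl
    intro j' _
    rw [Finset.mul_sum, Finset.mul_sum]
    apply Finset.sum_congr rfl
    intro j'' _
    by_cases h1 : σ (low i) = some j <;> by_cases h2 : σ (low i') = some j' <;>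
      by_cases h3 : σ (low i'') = some j'' <;> simp [h1, h2, h3, Y]
    ring
  rw [Finset.sum_congr rfl (fun σ _ => e σ), Finset.sum_comm, Finset.mul_sum]
  apply Finset.sum_congr rfl
  intro i _
  rw [Finset.sum_comm]
  have e2 : ∀ i' ∈ univ.erase i, ∑ σ : Perm (Option (Option κ)),
      ∑ i'' ∈ (univ.erase i).erase i', ∑ j, ∑ j', ∑ j'',
          v i j * (w i' j' * w i'' j'') *
          (if σ (low i) = some j ∧ σ (low i') = some j' ∧ σ (low i'') = some j'' then
            Y K κ σ else 0)
      = ∑ i'' ∈ (univ.erase i).erase i', ∑ j, v i j * ((N : K) * ∑ j' ∈ univ.erase j,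
          ∑ j'' ∈ (univ.erase j).erase j', (yy K κ j + yy K κ j' + yy K κ j'') *
          (w i' j' * w i'' j'')) := by
    intro i' hi'
    rw [Finset.sum_comm]
    apply Finset.sum_congr rfl
    intro i'' hi''
    rw [Finset.sum_comm]
    apply Finset.sum_congr rfl
    intro j _
    rw [Finset.sum_comm, Finset.mul_sum, Finset.mul_sum]
    have hne1 : i ≠ i' := (Finset.ne_of_mem_erase hi').symm
    have hne3 : i' ≠ i'' := (Finset.ne_of_mem_erase hi'').symm
    have hne2 : i ≠ i'' := (Finset.ne_of_mem_erase (Finset.mem_of_mem_erase hi'')).symm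
    rw [← Finset.sum_subset (Finset.erase_subset j univ)]
    · apply Finset.sum_congr rfl
      intro j' hj'
      rw [Finset.sum_comm, Finset.mul_sum, Finset.mul_sum]
      rw [← Finset.sum_subset (Finset.subset_univ ((univ.erase j).erase j'))]
      · apply Finset.sum_congr rfl
        intro j'' hj''
        rw [← Finset.mul_sum, hN i i' i'' hne1 hne2 hne3, if_pos]
        · ring
        · exact ⟨(Finset.ne_of_mem_erase hj').symm,
            (Finset.ne_of_mem_erase (Finset.mem_of_mem_erase hj'')).symm,
            (Finset.ne_of_mem_erase hj'').symm⟩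
      · intro j'' _ hj''
        rw [← Finset.mul_sum, hN i i' i'' hne1 hne2 hne3, if_neg, mul_zero]
        rintro ⟨h1, h2, h3⟩
        apply hj''
        simp [h2.symm, h3.symm]
    · intro j' _ hj'
      apply Finset.sum_eq_zero
      intro σ _
      apply Finset.sum_eq_zero
      intro j'' _
      rw [if_neg, mul_zero]
      rintro ⟨h1, h2, -⟩
      have hjj : j' = j := by
        by_contra hne
        exact hj' (Finset.mem_erase.mpr ⟨hne, Finset.mem_univ _⟩)
      rw [hjj, ← h1] at h2
      exact hne1 (low_injective (σ.injective h2)).symm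
  rw [Finset.sum_congr rfl e2, Finset.mul_sum]
  have e3 : ∀ i' ∈ univ.erase i, ∑ i'' ∈ (univ.erase i).erase i', ∑ j, v i j * ((N : K) *
        ∑ j' ∈ univ.erase j, ∑ j'' ∈ (univ.erase j).erase j',
          (yy K κ j + yy K κ j' + yy K κ j'') * (w i' j' * w i'' j''))
      = ∑ j, ∑ i'' ∈ (univ.erase i).erase i', v i j * ((N : K) *
        ∑ j' ∈ univ.erase j, ∑ j'' ∈ (univ.erase j).erase j',
          (yy K κ j + yy K κ j' + yy K κ j'') * (w i' j' * w i'' j'')) := by
    intro i' _
    rw [Finset.sum_comm]
  rw [Finset.sum_congr rfl e3, Finset.sum_comm]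
  apply Finset.sum_congr rfl
  intro j _
  rw [Finset.mul_sum, Finset.mul_sum]
  apply Finset.sum_congr rfl
  intro i' _
  rw [Finset.mul_sum, Finset.mul_sum]
  apply Finset.sum_congr rfl
  intro i'' _
  ring

end expand

end Pool.Agent.H567
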