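import Mathlib

set_option autoImplicit false
set_option linter.unusedSectionVars false

namespace Pool.Agent.H567

open Finset

section quad

variable {K : Type*} [Field K] {κ : Type*} [Fintype κ] [DecidableEq κ]
  {lam : Type*} [Fintype lam] [DecidableEq lam]

/-- row sum -/
def Rs (w : Matrix κ lam K) (i : κ) : K := ∑ j, w i j
/-- column sum -/
def Cs (w : Matrix κ lam K) (j : lam) : K := ∑ i, w i j

/-- the gradient of the sum of all 3 x 3 subpermanents (times 2 / 3 ...) -/
def G (w : Matrix κ lam K) (i : κ) (j : lam) : K :=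
  ∑ i' ∈ univ.erase i, ∑ i'' ∈ (univ.erase i).erase i',
          ∑ j' ∈ univ.erase j, ∑ j'' ∈ (univ.erase j).erase j', w i' j' * w i'' j''

/-- the quadratic expression -/
def E (w : Matrix κ lam K) (i : κ) (j : lam) : K :=
  4 * (w i j)^2 - 4 * w i j * (Rs w i + Cs w j) + 2 * Rs w i * Cs w j

/-- row part -/
def Ar (w : Matrix κ lam K) (i : κ) : K :=
  2 * (Rs w i)^2 + 2 * (∑ j, w i j * Cs w j) - 2 * ∑ j, (w i j)^2

/-- column part -/
def Bc (w : Matrix κ lam K) (j : lam) : K :=
  2 * (Cs w j)^2 + 2 * (∑ i, w i j * Rs w i) - 2 * ∑ i, (w i j)^2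

/-- constant part -/
def Kc (w : Matrix κ lam K) : K :=
  (∑ i, ∑ j, (w i j)^2) - (∑ i, (Rs w i)^2) - ∑ j, (Cs w j)^2

lemma sum_Rs (w : Matrix κ lam K) : ∑ i, Rs w i = ∑ j, Cs w j := by
  unfold Rs Cs
  rw [Finset.sum_comm]

lemma G_eq (w : Matrix κ lam K) (hS : ∑ i, Rs w i = 0) (i : κ) (j : lam) :
    G w i j = E w i j + Ar w i + Bc w j + Kc w := by
  have hS' : ∑ j, Cs w j = 0 := by rw [← sum_Rs, hS]
  -- inner sums
  have h1 : ∀ i' ∈ univ.erase i, (∑ i'' ∈ (univ.erase i).erase i',
          ∑ j' ∈ univ.erase j, ∑ j'' ∈ (univ.erase j).erase j', w i' j' * w i'' j'')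
      = ∑ j' ∈ univ.erase j, w i' j' * (- Rs w i - Cs w j + w i j - Rs w i' - Cs w j'
          + w i j' + w i' j + w i' j') := by
    intro i' hi'
    rw [Finset.sum_comm]
    apply Finset.sum_congr rfl
    intro j' hj'
    have h2 : ∀ i'' : κ, ∑ j'' ∈ (univ.erase j).erase j', w i' j' * w i'' j''
        = w i' j' * (Rs w i'' - w i'' j - w i'' j') := by
      intro i''
      rw [← Finset.mul_sum, Finset.sum_erase_eq_sub hj',
        Finset.sum_erase_eq_sub (Finset.mem_univ j)]
      rfl
    simp_rw [h2]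
    rw [← Finset.mul_sum, Finset.sum_erase_eq_sub hi', Finset.sum_erase_eq_sub (Finset.mem_univ i),
      Finset.sum_sub_distrib, Finset.sum_sub_distrib, hS]
    change w i' j' * (0 - Cs w j - Cs w j' - (Rs w i - w i j - w i j')
      - (Rs w i' - w i' j - w i' j')) = _
    ring
  unfold G
  rw [Finset.sum_congr rfl h1]
  have h3 : ∀ i' : κ, ∑ j' ∈ univ.erase j, w i' j' * (- Rs w i - Cs w j + w i j - Rs w i'
        - Cs w j' + w i j' + w i' j + w i' j')
      = (Rs w i' - w i' j) * (- Rs w i - Cs w j + w i j - Rs w i' + w i' j)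
        - (∑ j', w i' j' * Cs w j') + (∑ j', w i' j' * w i j') + (∑ j', (w i' j')^2)
        - w i' j * (- Cs w j + w i j + w i' j) := by
    intro i'
    rw [Finset.sum_erase_eq_sub (Finset.mem_univ j)]
    have h4 : ∑ j', w i' j' * (- Rs w i - Cs w j + w i j - Rs w i'
        - Cs w j' + w i j' + w i' j + w i' j')
        = (Rs w i') * (- Rs w i - Cs w j + w i j - Rs w i' + w i' j)
          - (∑ j', w i' j' * Cs w j') + (∑ j', w i' j' * w i j') + (∑ j', (w i' j')^2) := by
      unfold Rs
      rw [Finset.sum_mul, ← Finset.sum_sub_distrib, ← Finset.sum_add_distrib,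
        ← Finset.sum_add_distrib]
      apply Finset.sum_congr rfl
      intro j' _
      ring
    rw [h4]
    ring
  simp_rw [h3]
  rw [Finset.sum_erase_eq_sub (Finset.mem_univ i)]
  have h5 : ∑ i', ((Rs w i' - w i' j) * (- Rs w i - Cs w j + w i j - Rs w i' + w i' j)
        - (∑ j', w i' j' * Cs w j') + (∑ j', w i' j' * w i j') + (∑ j', (w i' j')^2)
        - w i' j * (- Cs w j + w i j + w i' j))
      = - Cs w j * (- Rs w i - Cs w j + w i j) - (∑ i', (Rs w i')^2)
        + 2 * (∑ i', w i' j * Rs w i') - (∑ i', (w i' j)^2)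
        - (∑ j', (Cs w j')^2) + (∑ j', w i j' * Cs w j') + (∑ i', ∑ j', (w i' j')^2)
        - (Cs w j * (- Cs w j + w i j)) - ∑ i', (w i' j)^2 := by
    have e1 : ∑ i', (Rs w i' - w i' j) * (- Rs w i - Cs w j + w i j - Rs w i' + w i' j)
        = - Cs w j * (- Rs w i - Cs w j + w i j) - (∑ i', (Rs w i')^2)
        + 2 * (∑ i', w i' j * Rs w i') - (∑ i', (w i' j)^2) := by
      have : ∀ i', (Rs w i' - w i' j) * (- Rs w i - Cs w j + w i j - Rs w i' + w i' j)
          = Rs w i' * (- Rs w i - Cs w j + w i j) - w i' j * (- Rs w i - Cs w j + w i j)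
            - (Rs w i')^2 + 2 * (w i' j * Rs w i') - (w i' j)^2 := by
        intro i'; ring
      simp_rw [this]
      rw [Finset.sum_sub_distrib, Finset.sum_add_distrib, Finset.sum_sub_distrib,
        Finset.sum_sub_distrib, ← Finset.sum_mul, ← Finset.sum_mul, hS, ← Finset.mul_sum]
      change 0 * _ - Cs w j * _ - _ + _ - _ = _
      ring
    have e2 : ∑ i', ∑ j', w i' j' * Cs w j' = ∑ j', (Cs w j')^2 := by
      rw [Finset.sum_comm]
      apply Finset.sum_congr rfl
      intro j' _
      rw [← Finset.sum_mul]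
      change Cs w j' * Cs w j' = _
      ring
    have e3 : ∑ i', ∑ j', w i' j' * w i j' = ∑ j', w i j' * Cs w j' := by
      rw [Finset.sum_comm]
      apply Finset.sum_congr rfl
      intro j' _
      rw [← Finset.sum_mul]
      change Cs w j' * w i j' = _
      ring
    have e4 : ∑ i', w i' j * (- Cs w j + w i j + w i' j)
        = (Cs w j * (- Cs w j + w i j)) + ∑ i', (w i' j)^2 := by
      have : ∀ i', w i' j * (- Cs w j + w i j + w i' j)
          = w i' j * (- Cs w j + w i j) + (w i' j)^2 := by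
        intro i'; ring
      simp_rw [this]
      rw [Finset.sum_add_distrib, ← Finset.sum_mul]
      rfl
    rw [Finset.sum_sub_distrib, Finset.sum_add_distrib, Finset.sum_add_distrib,
      Finset.sum_sub_distrib, e1, e2, e3, e4]
    ring
  rw [h5]
  have e5 : ∑ j', w i j' * w i j' = ∑ j', (w i j')^2 :=
    Finset.sum_congr rfl (fun j' _ => by ring)
  rw [e5]
  unfold E Ar Bc Kc
  ring


lemma sum_E_row (w : Matrix κ lam K) (hS : ∑ i, Rs w i = 0) (i : κ) :
    ∑ j, E w i j = -2 * Ar w i := by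
  have hS' : ∑ j, Cs w j = 0 := by rw [← sum_Rs, hS]
  have : ∀ j, E w i j = 4 * (w i j)^2 - 4 * Rs w i * w i j - 4 * (w i j * Cs w j)
      + 2 * Rs w i * Cs w j := by
    intro j; unfold E; ring
  simp_rw [this]
  rw [Finset.sum_add_distrib, Finset.sum_sub_distrib, Finset.sum_sub_distrib, ← Finset.mul_sum,
    ← Finset.mul_sum, ← Finset.mul_sum, ← Finset.mul_sum, hS']
  unfold Ar
  change _ - 4 * Rs w i * Rs w i - _ + _ = _
  ring

lemma sum_E_col (w : Matrix κ lam K) (hS : ∑ i, Rs w i = 0) (j : lam) :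
    ∑ i, E w i j = -2 * Bc w j := by
  have : ∀ i, E w i j = 4 * (w i j)^2 - 4 * (w i j * Rs w i) - 4 * Cs w j * w i j
      + 2 * Cs w j * Rs w i := by
    intro j; unfold E; ring
  simp_rw [this]
  rw [Finset.sum_add_distrib, Finset.sum_sub_distrib, Finset.sum_sub_distrib, ← Finset.mul_sum,
    ← Finset.mul_sum, ← Finset.mul_sum, ← Finset.mul_sum, hS]
  unfold Bc
  change _ - _ - 4 * Cs w j * Cs w j + _ = _
  ring

lemma Ar_const (w : Matrix κ lam K) (hS : ∑ i, Rs w i = 0)
    (hG : ∀ i i' j, G w i j = G w i' j) (hc : (Fintype.card lam : K) ≠ 2) (i i' : κ) :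
    Ar w i = Ar w i' := by
  have h : ∀ i, ∑ j, G w i j = ((Fintype.card lam : K) - 2) * Ar w i + (∑ j, Bc w j)
      + (Fintype.card lam : K) * Kc w := by
    intro i
    simp_rw [G_eq w hS i]
    rw [Finset.sum_add_distrib, Finset.sum_add_distrib, Finset.sum_add_distrib, sum_E_row w hS,
      Finset.sum_const, Finset.sum_const, Finset.card_univ, nsmul_eq_mul, nsmul_eq_mul]
    ring
  have h1 := h i
  rw [Finset.sum_congr rfl (fun j _ => hG i i' j), h i'] at h1
  have h2 : ((Fintype.card lam : K) - 2) * (Ar w i - Ar w i') = 0 := by linear_combination -h1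
  rcases mul_eq_zero.mp h2 with h3 | h3
  · exact absurd (sub_eq_zero.mp h3) hc
  · exact sub_eq_zero.mp h3

lemma Bc_const (w : Matrix κ lam K) (hS : ∑ i, Rs w i = 0)
    (hc : (Fintype.card κ : K) ≠ 2) {j j' : lam} (hG : ∀ i, G w i j = G w i j') :
    Bc w j = Bc w j' := by
  have h : ∀ j, ∑ i, G w i j = ((Fintype.card κ : K) - 2) * Bc w j + (∑ i, Ar w i)
      + (Fintype.card κ : K) * Kc w := by
    intro j
    simp_rw [G_eq w hS _ j]
    rw [Finset.sum_add_distrib, Finset.sum_add_distrib, Finset.sum_add_distrib, sum_E_col w hS,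
      Finset.sum_const, Finset.sum_const, Finset.card_univ, nsmul_eq_mul, nsmul_eq_mul]
    ring
  have h1 := h j
  rw [Finset.sum_congr rfl (fun i _ => hG i), h j'] at h1
  have h2 : ((Fintype.card κ : K) - 2) * (Bc w j - Bc w j') = 0 := by linear_combination -h1
  rcases mul_eq_zero.mp h2 with h3 | h3
  · exact absurd (sub_eq_zero.mp h3) hc
  · exact sub_eq_zero.mp h3

/-- Column sum and row sum and the shifted entry, as linear maps -/
def RsL (K : Type*) [Field K] {κ lam : Type*} [Fintype κ] [Fintype lam] (i : κ) :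
    Matrix κ lam K →ₗ[K] K where
  toFun w := Rs w i
  map_add' x y := by simp [Rs, Finset.sum_add_distrib]
  map_smul' a x := by simp [Rs, Finset.mul_sum]

def CsL (K : Type*) [Field K] {κ lam : Type*} [Fintype κ] [Fintype lam] (j : lam) :
    Matrix κ lam K →ₗ[K] K where
  toFun w := Cs w j
  map_add' x y := by simp [Cs, Finset.sum_add_distrib]
  map_smul' a x := by simp [Cs, Finset.mul_sum]

def entL (K : Type*) [Field K] {κ lam : Type*} (i : κ) (j : lam) :
    Matrix κ lam K →ₗ[K] K where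
  toFun w := w i j
  map_add' _ _ := rfl
  map_smul' _ _ := rfl

def zeL (K : Type*) [Field K] {κ lam : Type*} [Fintype κ] [Fintype lam] (i : κ) (j : lam) :
    Matrix κ lam K →ₗ[K] K := (2 : K) • entL K i j - RsL K i - CsL K j

lemma zeL_apply (w : Matrix κ lam K) (i : κ) (j : lam) :
    zeL K i j w = 2 * w i j - Rs w i - Cs w j := rfl

lemma RsL_apply (w : Matrix κ lam K) (i : κ) : RsL K i w = Rs w i := rfl
lemma CsL_apply (w : Matrix κ lam K) (j : lam) : CsL K j w = Cs w j := rfl

lemma E_eq (w : Matrix κ lam K) (i : κ) (j : lam) :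
    E w i j = (zeL K i j w)^2 - (RsL K i w)^2 - (CsL K j w)^2 := by
  rw [zeL_apply, RsL_apply, CsL_apply]; unfold E; ring

/-- Intersecting with the kernel of a linear map. -/
lemma finrank_le_inf_ker {V T : Type*} [AddCommGroup V] [Module K V] [FiniteDimensional K V]
    [AddCommGroup T] [Module K T] [FiniteDimensional K T] (W : Submodule K V) (f : V →ₗ[K] T) :
    Module.finrank K W ≤ Module.finrank K (W ⊓ LinearMap.ker f : Submodule K V)
      + Module.finrank K T := by
  have h := LinearMap.finrank_range_add_finrank_ker (f.domRestrict W)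
  have h1 : Module.finrank K (LinearMap.range (f.domRestrict W)) ≤ Module.finrank K T :=
    Submodule.finrank_le _
  have h2 : Module.finrank K (LinearMap.ker (f.domRestrict W))
      ≤ Module.finrank K (W ⊓ LinearMap.ker f : Submodule K V) := by
    let φ : LinearMap.ker (f.domRestrict W) →ₗ[K] (W ⊓ LinearMap.ker f : Submodule K V) :=
      { toFun := fun x => ⟨x.1.1, Submodule.mem_inf.mpr ⟨x.1.2, x.2⟩⟩
        map_add' := fun _ _ => rfl
        map_smul' := fun _ _ => rfl }
    apply LinearMap.finrank_le_finrank_of_injective (f := φ)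
    intro x y hxy
    have h3 : (x.1.1 : V) = y.1.1 :=
      congrArg (fun z : (W ⊓ LinearMap.ker f : Submodule K V) => (z : V)) hxy
    exact Subtype.ext (Subtype.ext h3)
  omega

/-- Key dimension bound on subspaces where `ζ² = ρ² + γ²`. -/
lemma finrank_le_of_quadric [CharZero K] (hk : 2 ≤ Fintype.card κ) (i₁ : κ)
    (W : Submodule K (Matrix κ lam K)) (P : Finset lam) (hP : P.card + 1 ≤ Fintype.card κ)
    (hR : ∀ w ∈ W, RsL K i₁ w = 0) (hC : ∀ w ∈ W, ∀ j ∉ P, CsL K j w = 0)
    (hE : ∀ w ∈ W, ∀ i j, (zeL K i j w)^2 = (RsL K i w)^2 + (CsL K j w)^2) :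
    Module.finrank K W + 1 ≤ Fintype.card κ := by
  classical
  have hinj : ∀ w ∈ W, (∀ i, RsL K i w = 0) → (∀ j, CsL K j w = 0) → w = 0 := by
    intro w hw h1 h2
    ext i j
    have h := hE w hw i j
    rw [h1, h2, zeL_apply] at h
    have h1' : Rs w i = 0 := h1 i
    have h2' : Cs w j = 0 := h2 j
    rw [h1', h2'] at h
    have h3 : (2 * w i j)^2 = 0 := by linear_combination h
    have h4 : 2 * w i j = 0 := pow_eq_zero_iff (two_ne_zero) |>.mp h3
    simpa using h4
  have hpol : ∀ w ∈ W, ∀ w' ∈ W, ∀ i j, zeL K i j w * zeL K i j w'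
      = RsL K i w * RsL K i w' + CsL K j w * CsL K j w' := by
    intro w hw w' hw' i j
    have h1 := hE w hw i j
    have h2 := hE w' hw' i j
    have h3 := hE (w + w') (W.add_mem hw hw') i j
    rw [map_add, map_add, map_add] at h3
    have h4 : 2 * (zeL K i j w * zeL K i j w'
      - (RsL K i w * RsL K i w' + CsL K j w * CsL K j w')) = 0 := by
      linear_combination h3 - h1 - h2
    have h5 := (mul_eq_zero.mp h4).resolve_left two_ne_zero
    exact sub_eq_zero.mp h5
  by_cases hcase1 : ∀ w ∈ W, ∀ j, CsL K j w = 0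
  · -- inject into the row sums other than `i₁`
    let φ : W →ₗ[K] ({i : κ // i ≠ i₁} → K) :=
      { toFun := fun w i => RsL K i.1 w.1
        map_add' := fun x y => by funext i; simp
        map_smul' := fun a x => by funext i; simp }
    have hφ : Function.Injective φ := by
      rw [injective_iff_map_eq_zero]
      intro w hw
      apply Subtype.ext
      apply hinj w.1 w.2 _ (hcase1 w.1 w.2)
      intro i
      by_cases hi : i = i₁
      · rw [hi]; exact hR w.1 w.2
      · exact congrFun hw ⟨i, hi⟩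
    have := LinearMap.finrank_le_finrank_of_injective hφ
    rw [Module.finrank_fintype_fun_eq_card] at this
    have hc : Fintype.card {i : κ // i ≠ i₁} = Fintype.card κ - 1 := by
      rw [Fintype.card_subtype_compl, Fintype.card_subtype_eq]
    rw [hc] at this
    omega
  by_cases hcase2 : ∀ w ∈ W, ∀ i, RsL K i w = 0
  · let φ : W →ₗ[K] (P → K) :=
      { toFun := fun w j => CsL K j.1 w.1
        map_add' := fun x y => by funext i; simp
        map_smul' := fun a x => by funext i; simp }
    have hφ : Function.Injective φ := by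
      rw [injective_iff_map_eq_zero]
      intro w hw
      apply Subtype.ext
      apply hinj w.1 w.2 (hcase2 w.1 w.2)
      intro j
      by_cases hj : j ∈ P
      · exact congrFun hw ⟨j, hj⟩
      · exact hC w.1 w.2 j hj
    have := LinearMap.finrank_le_finrank_of_injective hφ
    rw [Module.finrank_fintype_fun_eq_card, Fintype.card_coe] at this
    omega
  push Not at hcase1 hcase2
  obtain ⟨w₀, hw₀, j₀, hj₀⟩ := hcase1
  obtain ⟨w₁, hw₁, i₀, hi₀⟩ := hcase2
  have hA : ∀ w ∈ W, CsL K j₀ w = 0 → ∀ i, RsL K i w = 0 := by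
    intro w hw hw0 i
    have h1 := hE w hw i j₀
    have h2 := hpol w hw w₀ hw₀ i j₀
    have h3 := hE w₀ hw₀ i j₀
    rw [hw0] at h1 h2
    have h4 : (RsL K i w)^2 * (CsL K j₀ w₀)^2 = 0 := by
      have e1 : (zeL K i j₀ w * zeL K i j₀ w₀)^2 = (RsL K i w * RsL K i w₀)^2 := by
        rw [h2]; ring
      have e2 : (zeL K i j₀ w * zeL K i j₀ w₀)^2
          = (RsL K i w)^2 * ((RsL K i w₀)^2 + (CsL K j₀ w₀)^2) := by
        rw [mul_pow, h1, h3]; ring
      rw [e1] at e2
      linear_combination -e2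
    rcases mul_eq_zero.mp h4 with h | h
    · exact pow_eq_zero_iff (two_ne_zero) |>.mp h
    · exact absurd (pow_eq_zero_iff (two_ne_zero) |>.mp h) hj₀
  have hB : ∀ w ∈ W, RsL K i₀ w = 0 → ∀ j, CsL K j w = 0 := by
    intro w hw hw0 j
    have h1 := hE w hw i₀ j
    have h2 := hpol w hw w₁ hw₁ i₀ j
    have h3 := hE w₁ hw₁ i₀ j
    rw [hw0] at h1 h2
    have h4 : (CsL K j w)^2 * (RsL K i₀ w₁)^2 = 0 := by
      have e1 : (zeL K i₀ j w * zeL K i₀ j w₁)^2 = (CsL K j w * CsL K j w₁)^2 := by
        rw [h2]; ring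
      have e2 : (zeL K i₀ j w * zeL K i₀ j w₁)^2
          = (CsL K j w)^2 * ((RsL K i₀ w₁)^2 + (CsL K j w₁)^2) := by
        rw [mul_pow, h1, h3]; ring
      rw [e1] at e2
      linear_combination -e2
    rcases mul_eq_zero.mp h4 with h | h
    · exact pow_eq_zero_iff (two_ne_zero) |>.mp h
    · exact absurd (pow_eq_zero_iff (two_ne_zero) |>.mp h) hi₀
  let φ : W →ₗ[K] K := (CsL K j₀).comp W.subtype
  have hφ : Function.Injective φ := by
    rw [injective_iff_map_eq_zero]
    intro w hw
    apply Subtype.ext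
    have h1 := hA w.1 w.2 hw
    exact hinj w.1 w.2 h1 (hB w.1 w.2 (h1 i₀))
  have := LinearMap.finrank_le_finrank_of_injective hφ
  rw [Module.finrank_self] at this
  omega

end quad

end Pool.Agent.H567
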