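import Mathlib
import Pool.Agent.H567.LinAlg
import Pool.Agent.H567.PermCount
import Pool.Agent.H567.PermExpand
import Pool.Agent.H567.Quad

set_option autoImplicit false
set_option linter.unusedSectionVars false

namespace Pool.Agent.H567

open Finset Polynomial

section main

variable {K : Type*} [Field K] {κ : Type*} [Fintype κ] [DecidableEq κ]

lemma eval_perm_pencil {ι : Type*} [Fintype ι] [DecidableEq ι] (B N : Matrix ι ι K) (t : K) :
    (pencil B N).permanent.eval t = (B + t • N).permanent := by
  rw [permanent_eq, permanent_eq, Polynomial.eval_finsetSum]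
  apply Finset.sum_congr rfl
  intro σ _
  rw [Polynomial.eval_prod]
  apply Finset.prod_congr rfl
  intro i _
  simp [pencil_apply]
  ring

/-- column scaling factors -/
noncomputable def th (K : Type*) [Field K] (κ : Type*) [Fintype κ] : Option κ → K
  | none => 3 / (2 - (Fintype.card κ : K))
  | some _ => 1

/-- scaling of the columns -/
noncomputable def sc (K : Type*) [Field K] (κ : Type*) [Fintype κ] :
    Matrix κ (Option κ) K →ₗ[K] Matrix κ (Option κ) K where
  toFun w := Matrix.of fun i j => th K κ j * w i j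
  map_add' x y := by ext i j; simp [mul_add]
  map_smul' a x := by ext i j; simp; ring

lemma sc_apply (w : Matrix κ (Option κ) K) (i : κ) (j : Option κ) :
    sc K κ w i j = th K κ j * w i j := rfl

lemma th_mul (hk : (Fintype.card κ : K) ≠ 2) {j j' j'' : Option κ} (h1 : j ≠ j') (h2 : j ≠ j'')
    (h3 : j' ≠ j'') :
    th K κ j * th K κ j' * th K κ j'' * (yy K κ j + yy K κ j' + yy K κ j'') = 3 := by
  have hk' : (2 : K) - (Fintype.card κ : K) ≠ 0 := fun h => hk (by linear_combination -h)
  rcases j with _ | j <;> rcases j' with _ | j' <;> rcases j'' with _ | j'' <;>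
    simp_all [th, yy_none, yy_some]
  · field_simp; ring
  · field_simp; ring
  · field_simp; ring
  · ring

/-- The cubic form in scaled coordinates. -/
lemma coeff_two_Qpoly_sc (hk : (Fintype.card κ : K) ≠ 2) :
    ∃ N : ℕ, (3 ≤ Fintype.card κ → N ≠ 0) ∧
    ∀ w v : Matrix κ (Option κ) K, 2 * (Qpoly (sc K κ w) (sc K κ v)).coeff 2
      = 3 * (N : K) * ∑ i, ∑ j, v i j * G w i j := by
  obtain ⟨N, hN0, hN⟩ := coeff_two_Qpoly (K := K) (κ := κ)
  refine ⟨N, hN0, ?_⟩
  intro w v
  rw [hN, mul_comm (3 : K), mul_assoc, Finset.mul_sum univ _ (3 : K)]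
  congr 1
  apply Finset.sum_congr rfl
  intro i _
  rw [Finset.mul_sum]
  apply Finset.sum_congr rfl
  intro j _
  unfold G
  rw [sc_apply, mul_left_comm (3 : K), mul_assoc, mul_left_comm]
  congr 1
  rw [Finset.mul_sum, Finset.mul_sum]
  apply Finset.sum_congr rfl
  intro i' _
  rw [Finset.mul_sum, Finset.mul_sum]
  apply Finset.sum_congr rfl
  intro i'' _
  rw [Finset.mul_sum, Finset.mul_sum]
  apply Finset.sum_congr rfl
  intro j' hj'
  rw [Finset.mul_sum, Finset.mul_sum]
  apply Finset.sum_congr rfl
  intro j'' hj''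
  have h := th_mul hk (Finset.ne_of_mem_erase hj').symm
    (Finset.ne_of_mem_erase (Finset.mem_of_mem_erase hj'')).symm
    (Finset.ne_of_mem_erase hj'').symm
  rw [sc_apply, sc_apply]
  linear_combination (w i' j' * w i'' j'') * h

/-- the two constraints defining the working subspace -/
noncomputable def cons2 (K : Type*) [Field K] (κ : Type*) [Fintype κ] :
    Matrix κ (Option κ) K →ₗ[K] K × K :=
  LinearMap.prod (CsL K none) (∑ j : κ, CsL K (some j))

lemma cons2_apply (w : Matrix κ (Option κ) K) :
    cons2 K κ w = (Cs w none, ∑ j : κ, Cs w (some j)) := by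
  have h : (∑ j : κ, CsL K (some j) : Matrix κ (Option κ) K →ₗ[K] K) w
      = ∑ j : κ, Cs w (some j) := by
    rw [LinearMap.sum_apply]; rfl
  rw [← h]; rfl

lemma mem_ker_cons2 (w : Matrix κ (Option κ) K) :
    w ∈ LinearMap.ker (cons2 K κ) ↔ Cs w none = 0 ∧ ∑ j : κ, Cs w (some j) = 0 := by
  rw [LinearMap.mem_ker, cons2_apply, Prod.mk_eq_zero]

/-- elementary matrix -/
def El (K : Type*) [Field K] {κ lam : Type*} [DecidableEq κ] [DecidableEq lam] (i : κ) (j : lam) :
    Matrix κ lam K := Matrix.single i j 1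

lemma Cs_single (i : κ) (j j' : Option κ) :
    Cs (Matrix.single i j (1 : K)) j' = if j = j' then 1 else 0 := by
  unfold Cs
  by_cases h : j = j'
  · subst h
    rw [Finset.sum_eq_single i]
    · simp
    · intro b _ hb
      simp [hb.symm]
    · simp
  · rw [if_neg h]
    apply Finset.sum_eq_zero
    intro b _
    simp [h]

lemma sum_single_mul (i : κ) (j : Option κ) (g : κ → Option κ → K) :
    ∑ a, ∑ b, (Matrix.single i j (1 : K)) a b * g a b = g i j := by
  rw [Finset.sum_eq_single i]
  · rw [Finset.sum_eq_single j]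
    · simp
    · intro b _ hb
      simp [hb.symm]
    · simp
  · intro a _ ha
    apply Finset.sum_eq_zero
    intro b _
    simp [ha.symm]
  · simp

/-- Abstract main theorem. -/
theorem abstract_main [CharZero K] (hk3 : 3 ≤ Fintype.card κ) {n : ℕ}
    (B : Matrix (Fin n) (Fin n) K)
    (L : Matrix (Option (Option κ)) (Option (Option κ)) K →ₗ[K] Matrix (Fin n) (Fin n) K)
    (h : ∀ x, (B + L x).det = x.permanent) :
    (Fintype.card κ)^2 ≤ n + 4 := by
  classical
  set k := Fintype.card κ with hkdef
  have hkK : (Fintype.card κ : K) ≠ 2 := by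
    rw [← hkdef]
    intro hh
    have : (k : K) = ((2 : ℕ) : K) := by simpa using hh
    have := Nat.cast_injective this
    omega
  have hkK' : (Fintype.card (Option κ) : K) ≠ 2 := by
    rw [Fintype.card_option, ← hkdef]
    intro hh
    have : ((k + 1 : ℕ) : K) = ((2 : ℕ) : K) := by simpa using hh
    have := Nat.cast_injective this
    omega
  set B₀ := B + L (base K κ) with hB₀
  have hpoly : ∀ y z, (pencil (B₀ + L y) (L z)).det = (pencil (base K κ + y) z).permanent := by
    intro y z
    apply Polynomial.funext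
    intro t
    rw [eval_det_pencil, eval_perm_pencil, ← h, hB₀, map_add, map_add, map_smul]
    congr 1
    abel
  have hpoly0 : ∀ z, (pencil B₀ (L z)).det = (pencil (base K κ) z).permanent := by
    intro z
    have := hpoly 0 z
    rwa [map_zero, add_zero, add_zero] at this
  let L' : LinearMap.ker (cons2 K κ) →ₗ[K] Matrix (Fin n) (Fin n) K :=
    L.comp (ext.comp ((sc K κ).comp (LinearMap.ker (cons2 K κ)).subtype))
  have hL' : ∀ w, L' w = L (ext (sc K κ w.1)) := fun _ => rfl
  obtain ⟨N1, hN1, hP1⟩ := coeff_one_perm (K := K) (κ := κ)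
  obtain ⟨N3, hN3, hP3⟩ := coeff_two_Qpoly_sc (K := K) (κ := κ) hkK
  have hk' : (2 : K) - (Fintype.card κ : K) ≠ 0 := fun h => hkK (by linear_combination -h)
  obtain ⟨i₁⟩ : Nonempty κ := Fintype.card_pos_iff.mp (by omega)
  -- hypotheses of the linear algebra lemma
  have hdet : B₀.det = 0 := by
    have h1 := coeff_zero_perm (K := K) (κ := κ) 0
    rw [← hpoly0, Polynomial.coeff_zero_eq_eval_zero, eval_det_pencil, zero_smul, add_zero] at h1
    exact h1
  have hN₀ : (pencil B₀ (L (ext (Matrix.single i₁ (some i₁) (1 : K))))).det.coeff 1 ≠ 0 := by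
    rw [hpoly0, hP1]
    have : ∑ i, ∑ j, yy K κ j * (Matrix.single i₁ (some i₁) (1 : K)) i j = 1 := by
      have h2 := sum_single_mul (K := K) i₁ (some i₁) (fun _ j => yy K κ j)
      rw [yy_some] at h2
      refine Eq.trans ?_ h2
      apply Finset.sum_congr rfl
      intro i _
      apply Finset.sum_congr rfl
      intro j _
      ring
    rw [this, mul_one]
    have h3 : (N1 : K) ≠ 0 := Nat.cast_ne_zero.mpr (hN1 (by omega))
    exact neg_ne_zero.mpr h3
  have hL1 : ∀ w, (pencil B₀ (L' w)).det.coeff 1 = 0 := by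
    intro w
    rw [hL', hpoly0, hP1]
    obtain ⟨h1, h2⟩ := (mem_ker_cons2 w.1).mp w.2
    have : ∑ i, ∑ j, yy K κ j * sc K κ w.1 i j = 0 := by
      rw [Finset.sum_comm, Fintype.sum_option]
      have e1 : ∑ i, yy K κ none * sc K κ w.1 i none = 0 := by
        simp only [sc_apply]
        rw [← Finset.mul_sum, ← Finset.mul_sum]
        change yy K κ none * (th K κ none * Cs w.1 none) = 0
        rw [h1]; ring
      have e2 : ∑ j : κ, ∑ i, yy K κ (some j) * sc K κ w.1 i (some j) = 0 := by
        rw [← h2]
        apply Finset.sum_congr rfl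
        intro j _
        unfold Cs
        apply Finset.sum_congr rfl
        intro i _
        rw [sc_apply, yy_some]
        simp [th]
      rw [e1, e2, add_zero]
    rw [this, mul_zero, neg_zero]
  have hL2 : ∀ w, (pencil B₀ (L' w)).det.coeff 2 = 0 := by
    intro w
    rw [hL', hpoly0]
    exact coeff_two_perm _
  obtain ⟨W, hWdim, hW⟩ := exists_singular_subspace B₀ hdet _ hN₀ L' hL1 hL2
  rw [Fintype.card_fin] at hWdim
  -- the cubic condition
  have hcub : ∀ w ∈ W, ∀ v : LinearMap.ker (cons2 K κ), ∑ i, ∑ j, v.1 i j * G w.1 i j = 0 := by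
    intro w hw v
    have hQ : Qpoly (sc K κ w.1) (sc K κ v.1) = 0 := by
      apply Polynomial.funext
      intro t
      rw [eval_Qpoly, ← hpoly, Polynomial.eval_zero]
      have h1 := hW (t • w) (W.smul_mem t hw) v
      rw [hL', hL'] at h1
      have e : sc K κ (t • w : LinearMap.ker (cons2 K κ)).1 = t • sc K κ w.1 := by
        rw [Submodule.coe_smul, map_smul]
      rw [e] at h1
      exact h1
    have h1 := hP3 w.1 v.1
    rw [hQ, Polynomial.coeff_zero, mul_zero] at h1
    have h3 : (3 : K) * (N3 : K) ≠ 0 :=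
      mul_ne_zero three_ne_zero (Nat.cast_ne_zero.mpr (hN3 hk3))
    exact (mul_eq_zero.mp h1.symm).resolve_left h3
  have hG1 : ∀ w ∈ W, ∀ i i' : κ, ∀ j j' : κ, G w.1 i (some j) = G w.1 i' (some j') := by
    intro w hw i i' j j'
    have hv : Matrix.single i (some j) (1 : K) - Matrix.single i' (some j') (1 : K)
        ∈ LinearMap.ker (cons2 K κ) := by
      rw [LinearMap.mem_ker, map_sub, cons2_apply, cons2_apply]
      simp [Cs_single]
    have h1 := hcub w hw ⟨_, hv⟩
    simp only [Matrix.sub_apply, sub_mul, Finset.sum_sub_distrib, sum_single_mul] at h1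
    exact sub_eq_zero.mp h1
  have hG2 : ∀ w ∈ W, ∀ i i' : κ, G w.1 i none = G w.1 i' none := by
    intro w hw i i'
    have hv : Matrix.single i none (1 : K) - Matrix.single i' none (1 : K)
        ∈ LinearMap.ker (cons2 K κ) := by
      rw [LinearMap.mem_ker, map_sub, cons2_apply, cons2_apply]
      simp [Cs_single]
    have h1 := hcub w hw ⟨_, hv⟩
    simp only [Matrix.sub_apply, sub_mul, Finset.sum_sub_distrib, sum_single_mul] at h1
    exact sub_eq_zero.mp h1
  have hS : ∀ w : LinearMap.ker (cons2 K κ), ∑ i, Rs w.1 i = 0 := by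
    intro w
    obtain ⟨h1, h2⟩ := (mem_ker_cons2 w.1).mp w.2
    rw [sum_Rs, Fintype.sum_option, h1, h2, add_zero]
  have hE1 : ∀ w ∈ W, ∀ i i' : κ, ∀ j j' : κ, E w.1 i (some j) = E w.1 i' (some j') := by
    intro w hw i i' j j'
    have hGG : ∀ (i i' : κ) (j : Option κ), G w.1 i j = G w.1 i' j := by
      intro i i' j
      rcases j with _ | j
      · exact hG2 w hw i i'
      · exact hG1 w hw i i' j j
    have hA := Ar_const w.1 (hS w) hGG hkK' i i'
    have hB := Bc_const w.1 (hS w) hkK (j := some j) (j' := some j')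
      (fun i => hG1 w hw i i j j')
    have h1 := G_eq w.1 (hS w) i (some j)
    have h2 := G_eq w.1 (hS w) i' (some j')
    have h3 := hG1 w hw i i' j j'
    rw [h1, h2, hA, hB] at h3
    linear_combination h3
  have hE2 : ∀ w ∈ W, ∀ i i' : κ, E w.1 i none = E w.1 i' none := by
    intro w hw i i'
    have hGG : ∀ (i i' : κ) (j : Option κ), G w.1 i j = G w.1 i' j := by
      intro i i' j
      rcases j with _ | j
      · exact hG2 w hw i i'
      · exact hG1 w hw i i' j j
    have hA := Ar_const w.1 (hS w) hGG hkK' i i'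
    have h1 := G_eq w.1 (hS w) i none
    have h2 := G_eq w.1 (hS w) i' none
    have h3 := hG2 w hw i i'
    rw [h1, h2, hA] at h3
    linear_combination h3
  -- the image of `W` in the matrix space
  set W' : Submodule K (Matrix κ (Option κ) K) := W.map (LinearMap.ker (cons2 K κ)).subtype
    with hW'
  have hWW' : Module.finrank K W' = Module.finrank K W :=
    Submodule.finrank_map_subtype_eq _ _
  let F4 : Matrix κ (Option κ) K →ₗ[K] (K × K) × (K × K) :=
    LinearMap.prod (LinearMap.prod (zeL K i₁ (some i₁)) (RsL K i₁))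
      (LinearMap.prod (CsL K (some i₁)) (zeL K i₁ none))
  have hd1 := finrank_le_inf_ker W' F4
  have hd4 : Module.finrank K ((K × K) × (K × K)) = 4 := by
    simp [Module.finrank_prod]
  rw [hd4] at hd1
  have hK0 : Module.finrank K (W' ⊓ LinearMap.ker F4 : Submodule K (Matrix κ (Option κ) K)) + 1
      ≤ Fintype.card κ := by
    have hmem : ∀ w ∈ (W' ⊓ LinearMap.ker F4 : Submodule K (Matrix κ (Option κ) K)),
        ∃ w' : LinearMap.ker (cons2 K κ), w' ∈ W ∧ w'.1 = w ∧ zeL K i₁ (some i₁) w = 0 ∧
          RsL K i₁ w = 0 ∧ CsL K (some i₁) w = 0 ∧ zeL K i₁ none w = 0 := by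
      intro w hw
      obtain ⟨hw1, hw2⟩ := Submodule.mem_inf.mp hw
      obtain ⟨w', hw', rfl⟩ := Submodule.mem_map.mp hw1
      rw [LinearMap.mem_ker] at hw2
      have e : F4 ((LinearMap.ker (cons2 K κ)).subtype w')
        = ((zeL K i₁ (some i₁) w'.1, RsL K i₁ w'.1), (CsL K (some i₁) w'.1, zeL K i₁ none w'.1)) :=
        rfl
      rw [e] at hw2
      simp only [Prod.mk_eq_zero] at hw2
      exact ⟨w', hw', rfl, hw2.1.1, hw2.1.2, hw2.2.1, hw2.2.2⟩
    apply finrank_le_of_quadric (by omega) i₁ _ ((univ.erase i₁).image some)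
    · rw [Finset.card_image_of_injective _ (Option.some_injective _),
        Finset.card_erase_of_mem (Finset.mem_univ _), Finset.card_univ]
      omega
    · intro w hw
      obtain ⟨w', _, _, _, h2, _, _⟩ := hmem w hw
      exact h2
    · intro w hw j hj
      obtain ⟨w', _, hww, _, _, h3, _⟩ := hmem w hw
      rcases j with _ | j
      · obtain ⟨h1, _⟩ := (mem_ker_cons2 w'.1).mp w'.2
        rw [hww] at h1
        exact h1
      · by_cases hji : j = i₁
        · rw [hji]; exact h3
        · exfalso
          apply hj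
          simp [hji]
    · intro w hw i j
      obtain ⟨w', hw', hww, h1, h2, h3, h4⟩ := hmem w hw
      have hEz : E w i j = 0 := by
        rcases j with _ | j
        · have e1 := hE2 w' hw' i i₁
          rw [hww] at e1
          rw [e1, E_eq, h4, h2]
          obtain ⟨h5, _⟩ := (mem_ker_cons2 w'.1).mp w'.2
          rw [hww] at h5
          rw [CsL_apply, h5]
          ring
        · have e1 := hE1 w' hw' i i₁ j i₁
          rw [hww] at e1
          rw [e1, E_eq, h1, h2, h3]
          ring
      rw [E_eq] at hEz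
      linear_combination hEz
  -- dimension count
  have hdV := LinearMap.finrank_range_add_finrank_ker (cons2 K κ)
  have hr2 : Module.finrank K (LinearMap.range (cons2 K κ)) ≤ 2 := by
    have := Submodule.finrank_le (LinearMap.range (cons2 K κ))
    rwa [Module.finrank_prod, Module.finrank_self] at this
  rw [Module.finrank_matrix, Module.finrank_self, mul_one, Fintype.card_option] at hdV
  rw [← hkdef] at hdV hK0
  have hfin : k * (k + 1) ≤ k + n + 4 := by omega
  nlinarith [hfin]

end main

end Pool.Agent.H567
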